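import Mathlib

/-!
# The integers whose classes modulo `q` are in a small subgroup

`FS q K V r` is the set of the integers `0 < n < q` composed of primes of `V` with `log n ≤ r`, whose
classes modulo `q` are in the subgroup `K`.
-/

set_option autoImplicit false

namespace Pool.Agent.V8H35.NV

open Finset
open scoped Classical

variable {q : ℕ} [Fact q.Prime]

/-- the class of `n` modulo `q` is in `K` -/
def InK (q : ℕ) [Fact q.Prime] (K : Subgroup (ZMod q)ˣ) (n : ℕ) : Prop :=
  ∃ u ∈ K, ((u : (ZMod q)ˣ) : ZMod q) = (n : ZMod q)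

/-- the set of the integers -/
noncomputable def FS (q : ℕ) [Fact q.Prime] (K : Subgroup (ZMod q)ˣ) (V : Finset ℕ) (r : ℝ) :
    Finset ℕ := (range q).filter (fun n => 0 < n ∧ n.primeFactors ⊆ V ∧ Real.log n ≤ r ∧ InK q K n)

lemma mem_FS {K : Subgroup (ZMod q)ˣ} {V : Finset ℕ} {r : ℝ} {n : ℕ} : n ∈ FS q K V r ↔
    n < q ∧ 0 < n ∧ n.primeFactors ⊆ V ∧ Real.log n ≤ r ∧ InK q K n := by
  rw [FS, mem_filter, mem_range]

lemma InK.one {K : Subgroup (ZMod q)ˣ} : InK q K 1 := ⟨1, K.one_mem, by simp⟩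

lemma InK.mul {K : Subgroup (ZMod q)ˣ} {a b : ℕ} (ha : InK q K a) (hb : InK q K b) :
    InK q K (a * b) := by
  obtain ⟨u, hu, hu'⟩ := ha
  obtain ⟨v, hv, hv'⟩ := hb
  exact ⟨u * v, K.mul_mem hu hv, by push_cast; rw [hu', hv']⟩

/-- at most `#K` integers below `q` -/
lemma card_InK_le {K : Subgroup (ZMod q)ˣ} (S : Finset ℕ) (hS : ∀ n ∈ S, n < q ∧ InK q K n) :
    S.card ≤ Fintype.card K := by
  have : NeZero q := ⟨(Nat.Prime.pos Fact.out).ne'⟩
  choose! f hf using fun n (hn : n ∈ S) => (hS n hn).2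
  rw [← Fintype.card_coe]
  refine Fintype.card_le_of_injective (fun n : S => (⟨f n.1, (hf n.1 n.2).1⟩ : K)) ?_
  intro a b hab
  simp only [Subtype.mk.injEq] at hab
  have ha := (hf a.1 a.2).2
  have hb := (hf b.1 b.2).2
  rw [hab] at ha
  rw [ha] at hb
  have h1 := congrArg ZMod.val hb
  rw [ZMod.val_natCast_of_lt (hS a.1 a.2).1, ZMod.val_natCast_of_lt (hS b.1 b.2).1] at h1
  exact Subtype.ext h1

lemma card_FS_le (K : Subgroup (ZMod q)ˣ) (V : Finset ℕ) (r : ℝ) :
    (FS q K V r).card ≤ Fintype.card K :=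
  card_InK_le _ fun n hn => by
    rw [mem_FS] at hn
    exact ⟨hn.1, hn.2.2.2.2⟩

lemma one_mem {K : Subgroup (ZMod q)ˣ} {V : Finset ℕ} {r : ℝ} (hr : 0 ≤ r) : 1 ∈ FS q K V r := by
  rw [mem_FS]
  exact ⟨(Nat.Prime.one_lt Fact.out), one_pos, by simp, by simpa using hr, InK.one⟩

lemma card_pos {K : Subgroup (ZMod q)ˣ} {V : Finset ℕ} {r : ℝ} (hr : 0 ≤ r) :
    0 < (FS q K V r).card := Finset.card_pos.2 ⟨1, one_mem hr⟩

lemma mono {K : Subgroup (ZMod q)ˣ} {V V' : Finset ℕ} {r r' : ℝ} (hV : V ⊆ V') (hr : r ≤ r') :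
    FS q K V r ⊆ FS q K V' r' := by
  intro n hn
  rw [mem_FS] at hn ⊢
  exact ⟨hn.1, hn.2.1, hn.2.2.1.trans hV, hn.2.2.2.1.trans hr, hn.2.2.2.2⟩

lemma mul_mem {K : Subgroup (ZMod q)ˣ} {U U' : Finset ℕ} {r r' : ℝ} (hrr : r + r' < Real.log q)
    {a b : ℕ} (ha : a ∈ FS q K U r) (hb : b ∈ FS q K U' r') : a * b ∈ FS q K (U ∪ U') (r + r') := by
  rw [mem_FS] at ha hb ⊢
  obtain ⟨-, a2, a3, a4, a5⟩ := ha
  obtain ⟨-, b2, b3, b4, b5⟩ := hb
  have h0 : 0 < a * b := Nat.mul_pos a2 b2
  have h1 : Real.log ((a * b : ℕ) : ℝ) ≤ r + r' := by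
    push_cast
    rw [Real.log_mul (by exact_mod_cast a2.ne') (by exact_mod_cast b2.ne')]
    linarith
  refine ⟨?_, h0, ?_, h1, a5.mul b5⟩
  · have hq : (0 : ℝ) < q := by exact_mod_cast (Nat.Prime.pos Fact.out : 0 < q)
    have h2 := (Real.log_lt_log_iff (by exact_mod_cast h0) hq).1 (lt_of_le_of_lt h1 hrr)
    exact_mod_cast h2
  · rw [Nat.primeFactors_mul a2.ne' b2.ne']
    exact union_subset_union a3 b3

lemma eq_of_mul_eq {U U' : Finset ℕ} (hd : Disjoint U U') {a b a' b' : ℕ} (ha : 0 < a)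
    (ha' : 0 < a') (hb : 0 < b) (hb' : 0 < b') (h1 : a.primeFactors ⊆ U) (h2 : a'.primeFactors ⊆ U)
    (h3 : b.primeFactors ⊆ U') (h4 : b'.primeFactors ⊆ U') (h : a * b = a' * b') :
    a = a' ∧ b = b' := by
  have hc : ∀ {x y : ℕ}, 0 < x → 0 < y → x.primeFactors ⊆ U → y.primeFactors ⊆ U' → Nat.Coprime x y := by
    intro x y hx hy hx' hy'
    rw [← Nat.disjoint_primeFactors hx.ne' hy.ne']
    exact Finset.disjoint_of_subset_left hx' (Finset.disjoint_of_subset_right hy' hd)
  have e1 : a ∣ a' := (hc ha hb' h1 h4).dvd_of_dvd_mul_right (Dvd.intro _ h)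
  have e2 : a' ∣ a := (hc ha' hb h2 h3).dvd_of_dvd_mul_right (Dvd.intro _ h.symm)
  have e3 : a = a' := Nat.dvd_antisymm e1 e2
  subst e3
  exact ⟨rfl, Nat.eq_of_mul_eq_mul_left ha h⟩

lemma card_mul_le {K : Subgroup (ZMod q)ˣ} {U U' : Finset ℕ} (hd : Disjoint U U') {r r' : ℝ}
    (hrr : r + r' < Real.log q) :
    (FS q K U r).card * (FS q K U' r').card ≤ (FS q K (U ∪ U') (r + r')).card := by
  rw [← card_product]
  refine Finset.card_le_card_of_injOn (fun z => z.1 * z.2) ?_ ?_
  · intro z hz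
    rw [mem_coe, mem_product] at hz
    exact mul_mem hrr hz.1 hz.2
  · intro z hz z' hz' h
    rw [mem_coe, mem_product, mem_FS, mem_FS] at hz hz'
    obtain ⟨⟨-, a2, a3, -, -⟩, -, b2, b3, -, -⟩ := hz
    obtain ⟨⟨-, c2, c3, -, -⟩, -, d2, d3, -, -⟩ := hz'
    obtain ⟨e1, e2⟩ := eq_of_mul_eq hd a2 c2 b2 d2 a3 c3 b3 d3 h
    exact Prod.ext e1 e2

/-- the products of `j` elements -/
lemma prod_mem {K : Subgroup (ZMod q)ˣ} {V : Finset ℕ} {r : ℝ} {j : ℕ} (hjr : j * r < Real.log q)
    (f : Fin j → ℕ) (hf : ∀ i, f i ∈ FS q K V r) : ∏ i, f i ∈ FS q K V (j * r) := by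
  have hq : (0 : ℝ) < q := by exact_mod_cast (Nat.Prime.pos Fact.out : 0 < q)
  have h0 : ∀ i, 0 < f i := fun i => (mem_FS.1 (hf i)).2.1
  have h0' : 0 < ∏ i, f i := Finset.prod_pos fun i _ => h0 i
  have h1 : Real.log ((∏ i, f i : ℕ) : ℝ) ≤ j * r := by
    push_cast
    rw [Real.log_prod (fun i _ => by exact_mod_cast (h0 i).ne')]
    refine (Finset.sum_le_card_nsmul _ _ r fun i _ => (mem_FS.1 (hf i)).2.2.2.1).trans ?_
    rw [card_univ, Fintype.card_fin, nsmul_eq_mul]
  rw [mem_FS]
  refine ⟨?_, h0', ?_, h1, ?_⟩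
  · have h2 := (Real.log_lt_log_iff (by exact_mod_cast h0') hq).1 (lt_of_le_of_lt h1 hjr)
    exact_mod_cast h2
  · intro p hp
    have hpp := Nat.prime_of_mem_primeFactors hp
    obtain ⟨i, -, hi⟩ := (Prime.dvd_finsetProd_iff hpp.prime _).1 (Nat.dvd_of_mem_primeFactors hp)
    exact (mem_FS.1 (hf i)).2.2.1 (Nat.mem_primeFactors.2 ⟨hpp, hi, (h0 i).ne'⟩)
  · have : ∀ s : Finset (Fin j), InK q K (∏ i ∈ s, f i) := by
      intro s
      induction s using Finset.induction_on with
      | empty => simpa using InK.one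
      | insert a s ha ih =>
        rw [prod_insert ha]
        exact (mem_FS.1 (hf a)).2.2.2.2.mul ih
    exact this univ

/-- the number of the products, with a bound `T` for the number of the representations -/
lemma pow_le (K : Subgroup (ZMod q)ˣ) (V : Finset ℕ) {r : ℝ} {j : ℕ} (hjr : j * r < Real.log q)
    (T : ℕ) (hT : ∀ n ∈ FS q K V (j * r),
      ((Fintype.piFinset (fun _ : Fin j => FS q K V r)).filter (fun f => ∏ i, f i = n)).card ≤ T) :
    (FS q K V r).card ^ j ≤ T * (FS q K V (j * r)).card := by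
  have h1 : (Fintype.piFinset (fun _ : Fin j => FS q K V r)).card = (FS q K V r).card ^ j := by
    rw [Fintype.card_piFinset, Finset.prod_const, card_univ, Fintype.card_fin]
  rw [← h1]
  apply Finset.card_le_mul_card_image_of_maps_to (f := fun f : Fin j → ℕ => ∏ i, f i)
  · intro f hf
    rw [Fintype.mem_piFinset] at hf
    exact prod_mem hjr f hf
  · exact hT

lemma rep_le (K : Subgroup (ZMod q)ˣ) (V : Finset ℕ) {r : ℝ} {j : ℕ} {n : ℕ} (hn : 0 < n) :
    ((Fintype.piFinset (fun _ : Fin j => FS q K V r)).filter (fun f => ∏ i, f i = n)).card ≤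
      (FS q K n.primeFactors r).card ^ j := by
  have h1 : (Fintype.piFinset (fun _ : Fin j => FS q K n.primeFactors r)).card =
      (FS q K n.primeFactors r).card ^ j := by
    rw [Fintype.card_piFinset, Finset.prod_const, card_univ, Fintype.card_fin]
  rw [← h1]
  apply card_le_card
  intro f hf
  rw [mem_filter, Fintype.mem_piFinset] at hf
  rw [Fintype.mem_piFinset]
  intro i
  have h2 := mem_FS.1 (hf.1 i)
  rw [mem_FS]
  refine ⟨h2.1, h2.2.1, ?_, h2.2.2.2⟩
  apply Nat.primeFactors_mono _ hn.ne'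
  rw [← hf.2]
  exact Finset.dvd_prod_of_mem _ (mem_univ i)

/-- the number of the representations of `n` as a product of `j` factors -/
lemma card_antidiag_le {j : ℕ} (hj : 1 ≤ j) {h : ℝ} (hh : 0 < h) :
    ∀ n : ℕ, 0 < n → (∀ p ∈ n.primeFactors, h ≤ Real.log p) →
      ((Nat.finMulAntidiag j n).card : ℝ) ≤ Real.exp (Real.log n / h * Real.log j) := by
  have hlj : 0 ≤ Real.log j := Real.log_nonneg (by exact_mod_cast hj)
  have hj0 : (0 : ℝ) < j := by exact_mod_cast hj
  intro n
  induction n using Nat.strong_induction_on with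
  | _ n ih =>
    intro hn hp
    rcases Nat.lt_or_ge 1 n with h1 | h1
    · obtain ⟨p, hpp, m, rfl⟩ := Nat.exists_prime_and_dvd (show n ≠ 1 by omega)
      have hm : 0 < m := Nat.pos_of_mul_pos_left hn
      have hmlt : m < p * m := by
        have := hpp.two_le
        nlinarith
      have hsub : m.primeFactors ⊆ (p * m).primeFactors :=
        Nat.primeFactors_mono (Dvd.intro_left _ rfl) hn.ne'
      have h2 := ih m hmlt hm (fun p' hp' => hp p' (hsub hp'))
      have h3 : h ≤ Real.log p := hp p (Nat.mem_primeFactors.2 ⟨hpp, Dvd.intro _ rfl, hn.ne'⟩)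
      have hcard : (Nat.finMulAntidiag j (p * m)).card ≤ j * (Nat.finMulAntidiag j m).card := by
        have h4 : (Nat.finMulAntidiag j (p * m)) ⊆
            ((univ : Finset (Fin j)) ×ˢ (Nat.finMulAntidiag j m)).image
              (fun z => Function.update z.2 z.1 (p * z.2 z.1)) := by
          intro f hf
          rw [Nat.mem_finMulAntidiag] at hf
          obtain ⟨i, -, hi⟩ := (Prime.dvd_finsetProd_iff hpp.prime _).1
            (show p ∣ ∏ i, f i by rw [hf.1]; exact Dvd.intro _ rfl)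
          obtain ⟨t, ht⟩ := hi
          rw [mem_image]
          refine ⟨(i, Function.update f i t), ?_, ?_⟩
          · rw [mem_product]
            refine ⟨mem_univ _, ?_⟩
            rw [Nat.mem_finMulAntidiag]
            refine ⟨?_, hm.ne'⟩
            have h5 := hf.1
            rw [← Finset.mul_prod_erase univ f (mem_univ i), ht, mul_assoc] at h5
            have h6 := Nat.eq_of_mul_eq_mul_left hpp.pos h5
            show ∏ k, Function.update f i t k = m
            rw [← Finset.mul_prod_erase univ _ (mem_univ i), Function.update_self]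
            rw [← h6]
            congr 1
            apply Finset.prod_congr rfl
            intro k hk
            rw [mem_erase] at hk
            rw [Function.update_of_ne hk.1]
          · simp only [Function.update_self, Function.update_idem]
            rw [← ht]
            exact Function.update_eq_self i f
        refine (card_le_card h4).trans (card_image_le.trans ?_)
        rw [card_product, card_univ, Fintype.card_fin]
      have hp0 : (0 : ℝ) < p := by exact_mod_cast hpp.pos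
      have hm0 : (0 : ℝ) < m := by exact_mod_cast hm
      calc ((Nat.finMulAntidiag j (p * m)).card : ℝ) ≤ j * (Nat.finMulAntidiag j m).card := by
            exact_mod_cast hcard
        _ ≤ j * Real.exp (Real.log m / h * Real.log j) := mul_le_mul_of_nonneg_left h2 hj0.le
        _ = Real.exp (Real.log j + Real.log m / h * Real.log j) := by
            rw [Real.exp_add, Real.exp_log hj0]
        _ ≤ _ := by
            rw [Real.exp_le_exp]
            push_cast
            rw [Real.log_mul hp0.ne' hm0.ne', add_div, add_mul]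
            have h6 : 1 ≤ Real.log p / h := by rw [le_div_iff₀ hh]; linarith
            have h7 := mul_le_mul_of_nonneg_right h6 hlj
            linarith
    · have h2 : n = 1 := by omega
      subst h2
      have h3 : Nat.finMulAntidiag j 1 ⊆ {fun _ => 1} := by
        intro f hf
        rw [Nat.mem_finMulAntidiag] at hf
        rw [mem_singleton]
        funext i
        exact Nat.eq_one_of_dvd_one (by rw [← hf.1]; exact Finset.dvd_prod_of_mem _ (mem_univ i))
      have h4 := card_le_card h3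
      rw [card_singleton] at h4
      simp only [Nat.cast_one, Real.log_one, zero_div, zero_mul, Real.exp_zero]
      exact_mod_cast h4

lemma rep_le' (K : Subgroup (ZMod q)ˣ) (V : Finset ℕ) {r : ℝ} {j : ℕ} {n : ℕ} (hn : 0 < n) :
    ((Fintype.piFinset (fun _ : Fin j => FS q K V r)).filter (fun f => ∏ i, f i = n)).card ≤
      (Nat.finMulAntidiag j n).card := by
  apply card_le_card
  intro f hf
  rw [mem_filter] at hf
  rw [Nat.mem_finMulAntidiag]
  exact ⟨hf.2, hn.ne'⟩

lemma sum_log_le (S : Finset ℕ) (hS : ∀ p ∈ S, p.Prime) {n : ℕ} (hn : 0 < n)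
    (hd : ∀ p ∈ S, p ∣ n) : ∑ p ∈ S, Real.log p ≤ Real.log n := by
  have h1 : ∏ p ∈ S, p ∣ n := Finset.prod_primes_dvd n (fun p hp => (hS p hp).prime) hd
  have h2 := Nat.le_of_dvd hn h1
  have h3 : ∀ p ∈ S, (p : ℝ) ≠ 0 := fun p hp => by exact_mod_cast (hS p hp).pos.ne'
  rw [← Real.log_prod h3]
  apply Real.log_le_log
  · exact Finset.prod_pos fun p hp => by exact_mod_cast (hS p hp).pos
  · rw [← Nat.cast_prod]
    exact_mod_cast h2

lemma card_pf_le {n : ℕ} (hn : 0 < n) {h : ℝ} (hp : ∀ p ∈ n.primeFactors, h ≤ Real.log p) :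
    (n.primeFactors.card : ℝ) * h ≤ Real.log n := by
  have h1 := sum_log_le n.primeFactors (fun p hp => Nat.prime_of_mem_primeFactors hp) hn
    (fun p hp => Nat.dvd_of_mem_primeFactors hp)
  have h2 : (n.primeFactors.card : ℝ) * h ≤ ∑ p ∈ n.primeFactors, Real.log p := by
    rw [← nsmul_eq_mul]
    exact Finset.card_nsmul_le_sum _ _ _ hp
  exact h2.trans h1

end Pool.Agent.V8H35.NV
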