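import Pool.Agent.V8H35.NV.N9

/-!
# The facts for large `q`
-/

set_option autoImplicit false

namespace Pool.Agent.V8H35.NV

open Filter Topology

lemma ev_exp_neg {M c a : ℝ} (hc : 0 < c) (ha : 0 < a) :
    ∀ᶠ x : ℝ in atTop, M * Real.exp (-(c * x)) ≤ a := by
  have h1 : Tendsto (fun x : ℝ => M * Real.exp (-(c * x))) atTop (𝓝 (M * 0)) := by
    apply Tendsto.const_mul
    exact Real.tendsto_exp_neg_atTop_nhds_zero.comp (tendsto_id.const_mul_atTop hc)
  rw [mul_zero] at h1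
  exact (h1.eventually (gt_mem_nhds ha)).mono fun x hx => hx.le

lemma ev_exp {c : ℝ} (hc : 0 < c) (a : ℝ) : ∀ᶠ x : ℝ in atTop, a ≤ Real.exp (c * x) :=
  (Real.tendsto_exp_atTop.comp (tendsto_id.const_mul_atTop hc)).eventually_ge_atTop a

theorem ev_FA {κ ε η δ C C1 : ℝ} (k₀ : ℕ) (hκ : 0 < κ) (hκ1 : κ < 1 / 3) (hε : 0 < ε) (hη : 0 < η)
    (hη1 : η ≤ 1 / 50) (hδ : 0 < δ) : ∀ᶠ x : ℝ in atTop, FA κ ε η δ C C1 k₀ x := by
  have h1 := eventually_ge_atTop (1 : ℝ)
  have h2 := ev_exp_neg (M := 7) (c := 1 / 2 - η - κ) (a := 1 / 8) (by linarith) (by norm_num)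
  have h3 := ev_exp_neg (M := C ^ 2 * k₀ + C * Real.sqrt (2 * C) + C * Real.sqrt 2) (c := δ / 2)
    (a := 1 / 4) (by positivity) (by norm_num)
  have h4 := ev_exp (c := η / 2) (by positivity) 2
  have h5 := ev_exp (c := (1 + κ) / 2) (by positivity) 2
  have h6 := ev_exp (c := ε / 4) (by positivity) (256 * C1)
  have h7 := ev_exp (c := 1 / 2 - κ - η) (by linarith) 160
  have h8 := ev_exp (c := 1 / 3 - κ) (by linarith) 2
  filter_upwards [h1, h2, h3, h4, h5, h6, h7, h8] with x h1 h2 h3 h4 h5 h6 h7 h8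
  refine ⟨h1, ?_, ?_, ?_, h5, ?_, h7, h8⟩
  · refine le_trans (le_of_eq ?_) h2
    congr 2; ring
  · refine le_trans (le_of_eq ?_) h3
    congr 2; ring
  · refine h4.trans (le_of_eq ?_)
    congr 1; ring
  · refine h6.trans (le_of_eq ?_)
    congr 1; ring

theorem ev_F1 {η δ c a γ : ℝ} (m : ℕ) (hη : η < δ * (1 - δ)) (hc : 0 < c) (hγ : γ < 1 / 2)
    (ha : 0 < a) (ha2 : 1 - ((m : ℝ) - 1) * c < a * (1 + c)) :
    ∀ᶠ x : ℝ in atTop, F1 η δ c a γ m x := by
  have h1 := eventually_ge_atTop (1 : ℝ)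
  have h2 := Real.tendsto_log_atTop.eventually_ge_atTop (1 : ℝ)
  have h3 := Real.tendsto_log_atTop.eventually (ev_exp_neg (M := 2 / (1 - Real.exp (-(1 / 2 - γ))))
    (c := (1 / 2 - γ) * (1 + c)) (a := 1 / 8) (mul_pos (by linarith) (by linarith)) (by norm_num))
  have h4 := (tendsto_rpow_atTop hc).eventually_ge_atTop (2 : ℝ)
  have h5 := (tendsto_id.const_mul_atTop (show 0 < δ * (1 - δ) - η by linarith)).eventually_ge_atTop
    (1 : ℝ)
  set u : ℝ := max 0 (1 - ((m : ℝ) - 1) * c) with hu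
  have hu1 : u < a * (1 + c) := max_lt (by positivity) ha2
  have hu0 : 0 ≤ u := le_max_left _ _
  have h6 := (tendsto_rpow_atTop (show 0 < a * (1 + c) - u by linarith)).eventually_ge_atTop (2 : ℝ)
  filter_upwards [h1, h2, h3, h4, h5, h6] with x h1 h2 h3 h4 h5 h6
  have hx0 : 0 < x := by linarith
  refine ⟨h1, h2, ?_, ?_, h4, ?_⟩
  · have e : (δ * (1 - δ) - η) * id x = δ * ((1 - δ) * x) - η * x := by simp only [id]; ring
    rw [e] at h5
    linarith
  · refine le_trans (le_of_eq ?_) h3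
    congr 2; ring
  · have e : x ^ (a * (1 + c)) = x ^ u * x ^ (a * (1 + c) - u) := by
      rw [← Real.rpow_add hx0]; congr 1; ring
    have h7 : x ^ (1 - ((m : ℝ) - 1) * c) ≤ x ^ u :=
      Real.rpow_le_rpow_of_exponent_le h1 (le_max_right _ _)
    have h8 : 1 ≤ x ^ u := Real.one_le_rpow h1 hu0
    rw [e]
    nlinarith

/-- the facts for the lower bound -/
theorem ev_v {M A B : ℝ} (hA : 0 < A) (hAB : A < B) :
    ∀ᶠ x : ℝ in atTop, M * x ^ A + 2 ≤ x ^ B := by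
  have h1 := eventually_ge_atTop (1 : ℝ)
  have h2 := (tendsto_rpow_atTop (show 0 < B - A by linarith)).eventually_ge_atTop (M + 2)
  filter_upwards [h1, h2] with x h1 h2
  have hx0 : 0 < x := by linarith
  have e : x ^ B = x ^ A * x ^ (B - A) := by
    rw [← Real.rpow_add hx0]; congr 1; ring
  have h3 : 1 ≤ x ^ A := Real.one_le_rpow h1 hA.le
  rw [e]
  have h4 := mul_le_mul_of_nonneg_left h2 (show 0 ≤ x ^ A by linarith)
  nlinarith

end Pool.Agent.V8H35.NV
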