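import Pool.Agent.V8H35.NV.N1

/-!
# The number of small integers in a small subgroup, after the removal of few primes

The entropy argument: a set of primes `U` is rich at the scale `r` if it supports many elements of size
`r`. Disjoint rich sets give many different elements of the subgroup, so there are few of them. If there
are no rich sets, then products of `2^s` elements have few representations.
-/

set_option autoImplicit false

namespace Pool.Agent.V8H35.NV

open Finset
open scoped Classical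

variable {q : ℕ} [Fact q.Prime]

/-- the logarithm of the number -/
noncomputable def lc (q : ℕ) [Fact q.Prime] (K : Subgroup (ZMod q)ˣ) (V : Finset ℕ) (r : ℝ) : ℝ :=
  Real.log ((FS q K V r).card : ℝ)

lemma lc_nonneg {K : Subgroup (ZMod q)ˣ} {V : Finset ℕ} {r : ℝ} (hr : 0 ≤ r) :
    0 ≤ lc q K V r := Real.log_nonneg (by exact_mod_cast (card_pos (K := K) (V := V) hr))

lemma lc_le {K : Subgroup (ZMod q)ˣ} {V : Finset ℕ} {r E : ℝ} (hr : 0 ≤ r)
    (hK : Real.log (Fintype.card K) ≤ E) : lc q K V r ≤ E :=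
  le_trans (Real.log_le_log (by exact_mod_cast (card_pos (K := K) (V := V) hr))
    (by exact_mod_cast card_FS_le K V r)) hK

lemma lc_mono {K : Subgroup (ZMod q)ˣ} {V V' : Finset ℕ} {r r' : ℝ} (hr0 : 0 ≤ r) (hV : V ⊆ V')
    (hr : r ≤ r') : lc q K V r ≤ lc q K V' r' :=
  Real.log_le_log (by exact_mod_cast (card_pos (K := K) (V := V) hr0))
    (by exact_mod_cast card_le_card (mono hV hr))

/-- the removal of few primes at a scale `r` -/
theorem exists_B (K : Subgroup (ZMod q)ˣ) (V : Finset ℕ) {r R E w δ : ℝ} (hδ0 : 0 < δ) (hδ1 : δ < 1)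
    (hr : 0 < r) (hrR : r ≤ δ * R) (hRq : R < Real.log q) (hE : 0 < E)
    (hK : Real.log (Fintype.card K) ≤ E) (hw : 0 ≤ w) :
    ∃ B ⊆ V, (B.card : ℝ) ≤ R / r * w ∧
      ∀ U ⊆ V \ B, (U.card : ℝ) ≤ w → lc q K U r ≤ E / ((1 - δ) * R) * r := by
  have hR : 0 < R := by
    by_contra hcon
    push Not at hcon
    nlinarith
  have hδ2 : 0 < 1 - δ := by linarith
  set P : ℕ → Prop := fun i => ∃ B ⊆ V, (B.card : ℝ) ≤ i * w ∧
    i * (E / ((1 - δ) * R) * r) ≤ lc q K B (i * r) with hP
  have hPle : ∀ i, P i → i ≤ ⌊(1 - δ) * R / r⌋₊ := by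
    rintro i ⟨B, -, -, hB⟩
    apply Nat.le_floor
    have h1 := hB.trans (lc_le (show (0 : ℝ) ≤ i * r by positivity) hK)
    rw [le_div_iff₀ hr]
    have h2 : (i : ℝ) * (E / ((1 - δ) * R) * r) = E * ((i * r) / ((1 - δ) * R)) := by ring
    rw [h2] at h1
    have h3 : (i * r) / ((1 - δ) * R) ≤ 1 := by
      by_contra hcon
      push Not at hcon
      nlinarith
    rwa [div_le_one (by positivity)] at h3
  have h0 : P 0 := ⟨∅, empty_subset _, by simp, by
    rw [Nat.cast_zero, zero_mul, zero_mul]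
    exact lc_nonneg le_rfl⟩
  set i₀ := Nat.findGreatest P ⌊(1 - δ) * R / r⌋₊ with hi₀
  have hPi : P i₀ := Nat.findGreatest_spec (Nat.zero_le _) h0
  have hi₀le : (i₀ : ℝ) ≤ (1 - δ) * R / r :=
    (show (i₀ : ℝ) ≤ ⌊(1 - δ) * R / r⌋₊ by exact_mod_cast hPle _ hPi).trans
      (Nat.floor_le (by positivity))
  obtain ⟨B, hBV, hB1, hB2⟩ := hPi
  refine ⟨B, hBV, hB1.trans (mul_le_mul_of_nonneg_right (hi₀le.trans ?_) hw), fun U hU hUw => ?_⟩
  · apply div_le_div_of_nonneg_right _ hr.le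
    nlinarith
  by_contra hcon
  push Not at hcon
  have hdis : Disjoint B U := (Finset.disjoint_of_subset_left hU sdiff_disjoint).symm
  have hir : (i₀ : ℝ) * r ≤ (1 - δ) * R := by
    rwa [le_div_iff₀ hr] at hi₀le
  have hsum : (i₀ : ℝ) * r + r < Real.log q := by nlinarith
  have hprod := card_mul_le (K := K) hdis hsum
  have hp1 : (0 : ℝ) < (FS q K B (i₀ * r)).card := by
    exact_mod_cast card_pos (K := K) (V := B) (show (0 : ℝ) ≤ i₀ * r by positivity)
  have hp2 : (0 : ℝ) < (FS q K U r).card := by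
    exact_mod_cast card_pos (K := K) (V := U) hr.le
  have hlog : lc q K B (i₀ * r) + lc q K U r ≤ lc q K (B ∪ U) (i₀ * r + r) := by
    unfold lc
    rw [← Real.log_mul hp1.ne' hp2.ne']
    apply Real.log_le_log (mul_pos hp1 hp2)
    exact_mod_cast hprod
  have hP1 : P (i₀ + 1) := by
    refine ⟨B ∪ U, union_subset hBV (hU.trans sdiff_subset), ?_, ?_⟩
    · rw [card_union_of_disjoint hdis]
      push_cast
      linarith
    · push_cast
      rw [show ((i₀ : ℝ) + 1) * r = i₀ * r + r by ring]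
      linarith
  have h1 := Nat.le_findGreatest (hPle _ hP1) hP1
  omega

/-- the removal of few primes at all scales between `h` and `δ R` -/
theorem exists_B_all (K : Subgroup (ZMod q)ˣ) (V : Finset ℕ) {R E h δ J : ℝ} (Λ : ℕ) (hδ0 : 0 < δ)
    (hδ1 : δ < 1) (hh : 0 < h) (hR : 0 < R) (hRq : R < Real.log q) (hE : 0 < E) (hJ : 0 ≤ J)
    (hK : Real.log (Fintype.card K) ≤ E) (hΛ : δ * R < h * (1 + δ) ^ Λ) :
    ∃ B ⊆ V, (B.card : ℝ) ≤ Λ * (J * R / (δ * h)) ∧
      ∀ U ⊆ V \ B, ∀ r : ℝ, h ≤ r → r ≤ δ * R → (U.card : ℝ) ≤ J * r / (δ * h) →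
        lc q K U r ≤ (1 + δ) * (E / ((1 - δ) * R)) * r := by
  have hμ : (1 : ℝ) < 1 + δ := by linarith
  have hδ2 : 0 < 1 - δ := by linarith
  have h1 : ∀ l : ℕ, ∃ B ⊆ V, (B.card : ℝ) ≤ J * R / (δ * h) ∧
      ∀ U ⊆ V \ B, (U.card : ℝ) ≤ J * (δ * R / (1 + δ) ^ l) / (δ * h) →
        lc q K U (δ * R / (1 + δ) ^ l) ≤ E / ((1 - δ) * R) * (δ * R / (1 + δ) ^ l) := by
    intro l
    have h2 : (1 : ℝ) ≤ (1 + δ) ^ l := one_le_pow₀ hμ.le
    have hr0 : 0 < δ * R / (1 + δ) ^ l := by positivity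
    obtain ⟨B, hBV, hB1, hB2⟩ := exists_B K V (r := δ * R / (1 + δ) ^ l)
      (w := J * (δ * R / (1 + δ) ^ l) / (δ * h)) hδ0 hδ1 hr0
      (div_le_self (by positivity) h2) hRq hE hK (by positivity)
    refine ⟨B, hBV, hB1.trans (le_of_eq ?_), hB2⟩
    field_simp
  choose Bf hBf1 hBf2 hBf3 using h1
  refine ⟨(range Λ).biUnion Bf, ?_, ?_, ?_⟩
  · intro p hp
    rw [mem_biUnion] at hp
    obtain ⟨l, hl, hpl⟩ := hp
    exact hBf1 l hpl
  · have h2 : (((range Λ).biUnion Bf).card : ℝ) ≤ ∑ l ∈ range Λ, ((Bf l).card : ℝ) := by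
      exact_mod_cast card_biUnion_le
    refine h2.trans ((Finset.sum_le_card_nsmul _ _ _ fun l hl => hBf2 l).trans ?_)
    rw [card_range, nsmul_eq_mul]
  · intro U hU r hr1 hr2 hc
    have hr0 : 0 < r := by linarith
    obtain ⟨l, hl1, hl2⟩ := exists_nat_pow_near (x := δ * R / r) (y := 1 + δ)
      (by rw [le_div_iff₀ hr0]; linarith) hμ
    have hlΛ : l < Λ := by
      have h1 : (1 + δ) ^ l < (1 + δ) ^ Λ := by
        refine lt_of_le_of_lt hl1 ?_
        rw [div_lt_iff₀ hr0]
        calc δ * R < h * (1 + δ) ^ Λ := hΛ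
          _ ≤ (1 + δ) ^ Λ * r := by
              rw [mul_comm]
              exact mul_le_mul_of_nonneg_left hr1 (by positivity)
      exact (pow_lt_pow_iff_right₀ hμ).1 h1
    have hp0 : (0 : ℝ) < (1 + δ) ^ l := by positivity
    have h1 : r ≤ δ * R / (1 + δ) ^ l := by
      rw [le_div_iff₀ hp0, mul_comm]
      rwa [le_div_iff₀ hr0] at hl1
    have h2 : δ * R / (1 + δ) ^ l ≤ (1 + δ) * r := by
      rw [div_lt_iff₀ hr0] at hl2
      rw [div_le_iff₀ hp0]
      have : (1 + δ) ^ (l + 1) = (1 + δ) * (1 + δ) ^ l := by rw [pow_succ]; ring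
      rw [this] at hl2
      linarith
    have hUB : U ⊆ V \ Bf l := by
      intro p hp
      have := hU hp
      rw [mem_sdiff] at this ⊢
      refine ⟨this.1, fun h => this.2 ?_⟩
      rw [mem_biUnion]
      exact ⟨l, mem_range.2 hlΛ, h⟩
    have h3 := hBf3 l U hUB (hc.trans (by
      apply div_le_div_of_nonneg_right _ (by positivity)
      exact mul_le_mul_of_nonneg_left h1 hJ))
    have h4 : 0 ≤ E / ((1 - δ) * R) := by positivity
    calc lc q K U r ≤ lc q K U (δ * R / (1 + δ) ^ l) := lc_mono hr0.le (Finset.Subset.refl U) h1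
      _ ≤ E / ((1 - δ) * R) * (δ * R / (1 + δ) ^ l) := h3
      _ ≤ E / ((1 - δ) * R) * ((1 + δ) * r) := mul_le_mul_of_nonneg_left h2 h4
      _ = _ := by ring

/-- one step, if sets of few primes support few elements -/
lemma step_few (K : Subgroup (ZMod q)ˣ) (V : Finset ℕ) {h r θ w : ℝ} {j : ℕ} (hj : 1 ≤ j)
    (hh : 0 < h) (hr0 : 0 < r) (hV : ∀ p ∈ V, h ≤ Real.log p) (hjrq : (j : ℝ) * r < Real.log q)
    (hw : (j : ℝ) * r / h ≤ w) (hprop : ∀ U ⊆ V, (U.card : ℝ) ≤ w → lc q K U r ≤ θ * r) :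
    lc q K V r ≤ θ * r + lc q K V (j * r) / j := by
  have hj0 : (0 : ℝ) < j := by exact_mod_cast hj
  set T : ℕ := ⌊Real.exp (θ * (j * r))⌋₊ with hT
  have hrep : ∀ n ∈ FS q K V (j * r),
      ((Fintype.piFinset (fun _ : Fin j => FS q K V r)).filter (fun f => ∏ i, f i = n)).card ≤ T := by
    intro n hn
    rw [mem_FS] at hn
    obtain ⟨-, hn0, hnV, hnl, -⟩ := hn
    refine (rep_le K V hn0).trans ?_
    apply Nat.le_floor
    have h1 := card_pf_le hn0 (h := h) (fun p hp => hV p (hnV hp))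
    have h2 : (n.primeFactors.card : ℝ) ≤ w := by
      refine le_trans ?_ hw
      rw [le_div_iff₀ hh]
      linarith
    have h3 := hprop n.primeFactors hnV h2
    have h4 : (0 : ℝ) < ((FS q K n.primeFactors r).card : ℝ) := by
      exact_mod_cast card_pos (K := K) (V := n.primeFactors) hr0.le
    have h5 : ((FS q K n.primeFactors r).card : ℝ) ≤ Real.exp (θ * r) := by
      rw [← Real.log_le_iff_le_exp h4]
      exact h3
    push_cast
    calc ((FS q K n.primeFactors r).card : ℝ) ^ j ≤ (Real.exp (θ * r)) ^ j :=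
          pow_le_pow_left₀ h4.le h5 _
      _ = Real.exp (θ * (j * r)) := by
          rw [← Real.exp_nat_mul]; congr 1; ring
  have hpow := pow_le K V hjrq T hrep
  have hc1 : (0 : ℝ) < ((FS q K V r).card : ℝ) := by
    exact_mod_cast card_pos (K := K) (V := V) hr0.le
  have hc2 : (0 : ℝ) < ((FS q K V (j * r)).card : ℝ) := by
    exact_mod_cast card_pos (K := K) (V := V) (show (0 : ℝ) ≤ j * r by positivity)
  have hpow' : ((FS q K V r).card : ℝ) ^ j ≤
      Real.exp (θ * (j * r)) * ((FS q K V (j * r)).card : ℝ) := by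
    have h1 : ((FS q K V r).card : ℝ) ^ j ≤ (T : ℝ) * ((FS q K V (j * r)).card : ℝ) := by
      exact_mod_cast hpow
    refine h1.trans (mul_le_mul_of_nonneg_right ?_ hc2.le)
    exact Nat.floor_le (Real.exp_pos _).le
  have hlog : (j : ℝ) * lc q K V r ≤ θ * (j * r) + lc q K V (j * r) := by
    have h1 := Real.log_le_log (pow_pos hc1 j) hpow'
    rw [Real.log_pow, Real.log_mul (Real.exp_pos _).ne' hc2.ne', Real.log_exp] at h1
    exact h1
  have h1 : (j : ℝ) * lc q K V r ≤ j * (θ * r + lc q K V (j * r) / j) := by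
    refine hlog.trans (le_of_eq ?_)
    field_simp
  exact le_of_mul_le_mul_left h1 hj0

/-- one step, with the trivial bound for the number of the representations -/
lemma step_triv (K : Subgroup (ZMod q)ˣ) (V : Finset ℕ) {h r : ℝ} {j : ℕ} (hj : 1 ≤ j)
    (hh : 0 < h) (hr0 : 0 < r) (hV : ∀ p ∈ V, h ≤ Real.log p) (hjrq : (j : ℝ) * r < Real.log q) :
    lc q K V r ≤ Real.log j / h * r + lc q K V (j * r) / j := by
  have hj0 : (0 : ℝ) < j := by exact_mod_cast hj
  have hlj0 : 0 ≤ Real.log j := Real.log_nonneg (by exact_mod_cast hj)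
  set T : ℕ := ⌊Real.exp (j * r / h * Real.log j)⌋₊ with hT
  have hrep : ∀ n ∈ FS q K V (j * r),
      ((Fintype.piFinset (fun _ : Fin j => FS q K V r)).filter (fun f => ∏ i, f i = n)).card ≤ T := by
    intro n hn
    rw [mem_FS] at hn
    obtain ⟨-, hn0, hnV, hnl, -⟩ := hn
    refine (rep_le' K V hn0).trans ?_
    apply Nat.le_floor
    refine (card_antidiag_le hj hh n hn0 (fun p hp => hV p (hnV hp))).trans ?_
    rw [Real.exp_le_exp]
    apply mul_le_mul_of_nonneg_right _ hlj0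
    exact div_le_div_of_nonneg_right hnl hh.le
  have hpow := pow_le K V hjrq T hrep
  have hc1 : (0 : ℝ) < ((FS q K V r).card : ℝ) := by
    exact_mod_cast card_pos (K := K) (V := V) hr0.le
  have hc2 : (0 : ℝ) < ((FS q K V (j * r)).card : ℝ) := by
    exact_mod_cast card_pos (K := K) (V := V) (show (0 : ℝ) ≤ j * r by positivity)
  have hpow' : ((FS q K V r).card : ℝ) ^ j ≤
      Real.exp (j * r / h * Real.log j) * ((FS q K V (j * r)).card : ℝ) := by
    have h1 : ((FS q K V r).card : ℝ) ^ j ≤ (T : ℝ) * ((FS q K V (j * r)).card : ℝ) := by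
      exact_mod_cast hpow
    refine h1.trans (mul_le_mul_of_nonneg_right ?_ hc2.le)
    exact Nat.floor_le (Real.exp_pos _).le
  have hlog : (j : ℝ) * lc q K V r ≤ j * r / h * Real.log j + lc q K V (j * r) := by
    have h1 := Real.log_le_log (pow_pos hc1 j) hpow'
    rw [Real.log_pow, Real.log_mul (Real.exp_pos _).ne' hc2.ne', Real.log_exp] at h1
    exact h1
  have h1 : (j : ℝ) * lc q K V r ≤ j * (Real.log j / h * r + lc q K V (j * r) / j) := by
    refine hlog.trans (le_of_eq ?_)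
    field_simp
  exact le_of_mul_le_mul_left h1 hj0

/-- the bound for the number of elements at the large scales -/
theorem count_large_scales (K : Subgroup (ZMod q)ˣ) (V : Finset ℕ) {R E h δ θ : ℝ} {J : ℕ}
    (hδ0 : 0 < δ) (hδ1 : δ < 1) (hh : 0 < h) (hV : ∀ p ∈ V, h ≤ Real.log p) (hR : 0 < R)
    (hRq : R < Real.log q) (hE : 0 < E) (hJ : 2 ≤ J) (hK : Real.log (Fintype.card K) ≤ E)
    (hθ : E / ((1 - δ) * R) ≤ θ)
    (hprop : ∀ U ⊆ V, ∀ r : ℝ, h ≤ r → r ≤ δ * R → (U.card : ℝ) ≤ J * r / (δ * h) →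
        lc q K U r ≤ θ * r) :
    ∀ s : ℕ, ∀ r : ℝ, h ≤ r → r ≤ δ * R → δ * R / J ^ (s + 1) ≤ r →
      lc q K V r ≤ (s + 2) * θ * r := by
  have hδ2 : 0 < 1 - δ := by linarith
  have hJ0 : (0 : ℝ) < J := by
    have : 0 < J := by omega
    exact_mod_cast this
  have hJ1 : (1 : ℝ) ≤ J := by
    have : 1 ≤ J := by omega
    exact_mod_cast this
  have hθ0 : 0 ≤ θ := le_trans (by positivity) hθ
  intro s
  induction s with
  | zero =>
    intro r hr1 hr2 hr3
    have hr0 : 0 < r := by linarith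
    rw [zero_add, pow_one, div_le_iff₀ hJ0] at hr3
    have hRr : 1 ≤ R / r := by
      rw [le_div_iff₀ hr0]
      nlinarith
    set j : ℕ := ⌊R / r⌋₊ with hj
    have hj1 : 1 ≤ j := Nat.le_floor (by exact_mod_cast hRr)
    have hj0 : (0 : ℝ) < j := by exact_mod_cast hj1
    have hju : (j : ℝ) ≤ R / r := Nat.floor_le (by positivity)
    have hjr : (j : ℝ) * r ≤ R := by rwa [le_div_iff₀ hr0] at hju
    have hjl : (1 - δ) * R ≤ j * r := by
      have h1 := Nat.lt_floor_add_one (R / r)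
      rw [← hj, div_lt_iff₀ hr0] at h1
      nlinarith
    have h1 := step_few K V (w := J * r / (δ * h)) hj1 hh hr0 hV (by linarith) (by
      rw [div_le_div_iff₀ hh (by positivity)]
      have h2 : (j : ℝ) * δ ≤ J := by
        have h3 : (j : ℝ) * δ ≤ R / r * δ := mul_le_mul_of_nonneg_right hju hδ0.le
        have h4 : R / r * δ ≤ J := by
          rw [div_mul_eq_mul_div, div_le_iff₀ hr0]
          linarith
        linarith
      calc (j : ℝ) * r * (δ * h) = (j * δ) * (r * h) := by ring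
        _ ≤ J * (r * h) := mul_le_mul_of_nonneg_right h2 (by positivity)
        _ = J * r * h := by ring) (fun U hU hc => hprop U hU r hr1 hr2 hc)
    have h2 : lc q K V (j * r) / j ≤ θ * r := by
      rw [div_le_iff₀ hj0]
      refine (lc_le (by positivity) hK).trans ?_
      calc E = E / ((1 - δ) * R) * ((1 - δ) * R) := by field_simp
        _ ≤ θ * (j * r) := mul_le_mul hθ hjl (by positivity) hθ0
        _ = _ := by ring
    push_cast
    linarith
  | succ s ih =>
    intro r hr1 hr2 hr3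
    have hr0 : 0 < r := by linarith
    rcases le_or_gt (δ * R / J ^ (s + 1)) r with hcase | hcase
    · have h1 := ih r hr1 hr2 hcase
      push_cast
      have : 0 ≤ θ * r := by positivity
      linarith
    · have hJr : (J : ℝ) * r ≤ δ * R := by
        rw [lt_div_iff₀ (by positivity)] at hcase
        have h2 : (J : ℝ) ≤ J ^ (s + 1) := by
          calc (J : ℝ) = J ^ 1 := (pow_one _).symm
            _ ≤ J ^ (s + 1) := pow_le_pow_right₀ hJ1 (by omega)
        have h3 := mul_le_mul_of_nonneg_left h2 hr0.le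
        linarith
      have hJr2 : δ * R / J ^ (s + 1) ≤ J * r := by
        rw [div_le_iff₀ (by positivity)] at hr3 ⊢
        have : (J : ℝ) ^ (s + 1 + 1) = J * J ^ (s + 1) := by rw [pow_succ]; ring
        rw [this] at hr3
        linarith
      have h1 := step_few K V (w := J * r / (δ * h)) (j := J) (by omega) hh hr0 hV (by nlinarith) (by
        apply div_le_div_of_nonneg_left (by positivity) (by positivity)
        nlinarith) (fun U hU hc => hprop U hU r hr1 hr2 hc)
      have h2 := ih (J * r) (by nlinarith) hJr hJr2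
      have h3 : lc q K V (J * r) / J ≤ (s + 2) * θ * r := by
        rw [div_le_iff₀ hJ0]
        refine h2.trans (le_of_eq ?_)
        ring
      push_cast
      linarith

/-- the bound for the number of elements at all scales -/
theorem count_all (K : Subgroup (ZMod q)ˣ) (V : Finset ℕ) {R E h δ θ a : ℝ} {J m : ℕ}
    (hδ0 : 0 < δ) (hδ1 : δ < 1) (hh : 0 < h) (hV : ∀ p ∈ V, h ≤ Real.log p) (hR : 0 < R)
    (hRq : R < Real.log q) (hE : 0 < E) (hJ : 2 ≤ J) (hK : Real.log (Fintype.card K) ≤ E)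
    (hθ : E / ((1 - δ) * R) ≤ θ) (hm : 2 ≤ m)
    (hprop : ∀ U ⊆ V, ∀ r : ℝ, h ≤ r → r ≤ δ * R → (U.card : ℝ) ≤ J * r / (δ * h) →
        lc q K U r ≤ θ * r) (ha : R / J ^ (m - 1) + 1 ≤ Real.exp (a * h)) (hh1 : 1 ≤ h) (ha0 : 0 ≤ a)
    {r : ℝ} (hr1 : h ≤ r) (hr2 : r ≤ δ * R) : lc q K V r ≤ (m * θ + a) * r := by
  have hJ0 : (0 : ℝ) < J := by
    have : 0 < J := by omega
    exact_mod_cast this
  have hJ2 : (2 : ℝ) ≤ J := by exact_mod_cast hJ
  have hr0 : 0 < r := by linarith
  have hδ2 : 0 < 1 - δ := by linarith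
  have hθ0 : 0 ≤ θ := le_trans (by positivity) hθ
  have hls := count_large_scales K V hδ0 hδ1 hh hV hR hRq hE hJ hK hθ hprop (m - 2)
  have e1 : ((m - 2 : ℕ) : ℝ) + 2 = m := by
    rw [Nat.cast_sub hm]; push_cast; ring
  have e2 : m - 2 + 1 = m - 1 := by omega
  rw [e1, e2] at hls
  rcases le_or_gt (δ * R / J ^ (m - 1)) r with hcase | hcase
  · refine (hls r hr1 hr2 hcase).trans ?_
    have : 0 ≤ a * r := by positivity
    linarith
  · have hp0 : (0 : ℝ) < (J : ℝ) ^ (m - 1) := by positivity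
    have hpJ : (2 : ℝ) ≤ (J : ℝ) ^ (m - 1) := by
      calc (2 : ℝ) ≤ J := hJ2
        _ = J ^ 1 := (pow_one _).symm
        _ ≤ J ^ (m - 1) := pow_le_pow_right₀ (by linarith) (by omega)
    set j : ℕ := ⌈δ * R / J ^ (m - 1) / r⌉₊ with hj
    have hjl : δ * R / J ^ (m - 1) ≤ j * r := by
      have := Nat.le_ceil (δ * R / J ^ (m - 1) / r)
      rw [← hj, div_le_iff₀ hr0] at this
      exact this
    have hj1 : 1 ≤ j := by
      rw [hj]
      apply Nat.ceil_pos.2
      positivity
    have hj0 : (0 : ℝ) < j := by exact_mod_cast hj1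
    have hju : (j : ℝ) < δ * R / J ^ (m - 1) / r + 1 := Nat.ceil_lt_add_one (by positivity)
    have hjr : (j : ℝ) * r ≤ δ * R := by
      have h1 : (j : ℝ) * r ≤ (δ * R / J ^ (m - 1) / r + 1) * r := mul_le_mul_of_nonneg_right hju.le hr0.le
      have h2 : (δ * R / J ^ (m - 1) / r + 1) * r = δ * R / J ^ (m - 1) + r := by field_simp
      rw [h2] at h1
      have h3 : δ * R / J ^ (m - 1) ≤ δ * R / 2 := div_le_div_of_nonneg_left (by positivity) (by norm_num) hpJ
      linarith
    have h1 := step_triv K V hj1 hh hr0 hV (show (j : ℝ) * r < Real.log q by nlinarith)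
    have h2 := hls (j * r) (by
      have : (1 : ℝ) ≤ j := by exact_mod_cast hj1
      nlinarith) hjr hjl
    have h3 : lc q K V (j * r) / j ≤ m * θ * r := by
      rw [div_le_iff₀ hj0]
      refine h2.trans (le_of_eq ?_)
      ring
    have h4 : Real.log j / h ≤ a := by
      rw [div_le_iff₀ hh, Real.log_le_iff_le_exp hj0]
      refine hju.le.trans (le_trans ?_ ha)
      have h5 : δ * R / J ^ (m - 1) / r ≤ R / J ^ (m - 1) := by
        rw [div_le_iff₀ hr0]
        have h6 : δ * R / J ^ (m - 1) ≤ R / J ^ (m - 1) := by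
          apply div_le_div_of_nonneg_right _ hp0.le
          nlinarith
        have h7 : R / J ^ (m - 1) ≤ R / J ^ (m - 1) * r :=
          le_mul_of_one_le_right (by positivity) (by linarith)
        linarith
      linarith
    have h5 := mul_le_mul_of_nonneg_right h4 hr0.le
    linarith

end Pool.Agent.V8H35.NV
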