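import Pool.Agent.V8H35.NV.N2

/-!
# The sum over the short relations
-/

set_option autoImplicit false

namespace Pool.Agent.V8H35.NV

open Finset
open scoped Classical

variable {q : ℕ} [Fact q.Prime]

lemma geom_le {b : ℝ} (hb : 0 < b) (n : ℕ) :
    ∑ i ∈ range n, Real.exp (-(b * i)) ≤ 1 / (1 - Real.exp (-b)) := by
  have h0 : ∀ i : ℕ, Real.exp (-(b * i)) = Real.exp (-b) ^ i := by
    intro i
    rw [← Real.exp_nat_mul]; congr 1; ring
  have h1 : Real.exp (-b) < 1 := by
    rw [Real.exp_lt_one_iff]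
    linarith
  have h1' : 0 < Real.exp (-b) := Real.exp_pos _
  simp only [h0]
  rw [geom_sum_eq h1.ne]
  have h2 : 0 < 1 - Real.exp (-b) := by linarith
  have h3 : (Real.exp (-b) ^ n - 1) / (Real.exp (-b) - 1) = (1 - Real.exp (-b) ^ n) / (1 - Real.exp (-b)) := by
    rw [← neg_div_neg_eq]; congr 1 <;> ring
  rw [h3]
  apply div_le_div_of_nonneg_right _ h2.le
  have : 0 ≤ Real.exp (-b) ^ n := by positivity
  linarith

theorem sum_short (K : Subgroup (ZMod q)ˣ) (V : Finset ℕ) {h R γ : ℝ} (hγ : γ < 1 / 2)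
    (hh : 0 < h) (hV : ∀ p ∈ V, h ≤ Real.log p)
    (hlc : ∀ r : ℝ, h ≤ r → r ≤ R + 1 → lc q K V r ≤ γ * r) :
    ∑ n ∈ (FS q K V R).erase 1, (n : ℝ) ^ (-(1 / 2 : ℝ)) ≤
      2 / (1 - Real.exp (-(1 / 2 - γ))) * Real.exp (-((1 / 2 - γ) * h)) := by
  obtain ⟨b, hb⟩ : ∃ b : ℝ, b = 1 / 2 - γ := ⟨_, rfl⟩
  have hb0 : 0 < b := by linarith
  rw [← hb]
  have hmin : ∀ n ∈ (FS q K V R).erase 1, h ≤ Real.log n ∧ Real.log n ≤ R ∧ 0 < n := by
    intro n hn
    rw [mem_erase, mem_FS] at hn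
    obtain ⟨h1, h2, h3, h4, h5, -⟩ := hn
    refine ⟨?_, h5, h3⟩
    have hne : n.primeFactors.Nonempty := by
      rw [Finset.nonempty_iff_ne_empty, Ne, Nat.primeFactors_eq_empty]
      omega
    have h6 := card_pf_le h3 (h := h) (fun p hp => hV p (h4 hp))
    have h7 : (1 : ℝ) ≤ n.primeFactors.card := by exact_mod_cast Finset.card_pos.2 hne
    nlinarith
  have hmaps : ∀ n ∈ (FS q K V R).erase 1, ⌊Real.log n - h⌋₊ ∈ range (⌊R - h⌋₊ + 1) := by
    intro n hn
    obtain ⟨h1, h2, -⟩ := hmin n hn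
    rw [mem_range, Nat.lt_succ_iff]
    exact Nat.floor_le_floor (by linarith)
  rw [← Finset.sum_fiberwise_of_maps_to hmaps]
  have hterm : ∀ i ∈ range (⌊R - h⌋₊ + 1), ∑ n ∈ ((FS q K V R).erase 1).filter
      (fun n : ℕ => ⌊Real.log n - h⌋₊ = i), (n : ℝ) ^ (-(1 / 2 : ℝ)) ≤
      2 * Real.exp (-(b * h)) * Real.exp (-(b * i)) := by
    intro i _
    rcases (((FS q K V R).erase 1).filter (fun n : ℕ => ⌊Real.log n - h⌋₊ = i)).eq_empty_or_nonempty with
      he | ⟨n₀, hn₀⟩
    · rw [he, sum_empty]; positivity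
    · rw [mem_filter] at hn₀
      obtain ⟨a1, a2, a3⟩ := hmin n₀ hn₀.1
      have hi0 : (i : ℝ) ≤ Real.log n₀ - h := by
        rw [← hn₀.2]
        exact Nat.floor_le (by linarith)
      set r : ℝ := h + i + 1 with hr
      have hrR : r ≤ R + 1 := by rw [hr]; linarith
      have hrh : h ≤ r := by
        have : (0 : ℝ) ≤ i := Nat.cast_nonneg i
        rw [hr]; linarith
      have hc := hlc r hrh hrR
      have hcard : ((FS q K V r).card : ℝ) ≤ Real.exp (γ * r) := by
        rw [← Real.log_le_iff_le_exp (by exact_mod_cast card_pos (K := K) (V := V) (by linarith))]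
        exact hc
      have hsub : ((FS q K V R).erase 1).filter (fun n : ℕ => ⌊Real.log n - h⌋₊ = i) ⊆ FS q K V r := by
        intro n hn
        rw [mem_filter] at hn
        have h1 := hmin n hn.1
        have h2 := mem_erase.1 hn.1
        rw [mem_FS] at h2 ⊢
        refine ⟨h2.2.1, h2.2.2.1, h2.2.2.2.1, ?_, h2.2.2.2.2.2⟩
        have h3 := Nat.lt_floor_add_one (Real.log n - h)
        rw [hn.2] at h3
        rw [hr]; linarith
      have hterm2 : ∀ n ∈ ((FS q K V R).erase 1).filter (fun n : ℕ => ⌊Real.log n - h⌋₊ = i),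
          (n : ℝ) ^ (-(1 / 2 : ℝ)) ≤ Real.exp (-((h + i) / 2)) := by
        intro n hn
        rw [mem_filter] at hn
        obtain ⟨b1, b2, b3⟩ := hmin n hn.1
        have h3 := Nat.floor_le (show 0 ≤ Real.log n - h by linarith)
        rw [hn.2] at h3
        have hn0 : (0 : ℝ) < n := by exact_mod_cast b3
        rw [Real.rpow_def_of_pos hn0, Real.exp_le_exp]
        linarith
      refine (Finset.sum_le_card_nsmul _ _ _ hterm2).trans ?_
      rw [nsmul_eq_mul]
      have hcard2 : ((((FS q K V R).erase 1).filter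
          (fun n : ℕ => ⌊Real.log n - h⌋₊ = i)).card : ℝ) ≤ Real.exp (γ * r) :=
        (show _ ≤ ((FS q K V r).card : ℝ) by exact_mod_cast card_le_card hsub).trans hcard
      refine (mul_le_mul_of_nonneg_right hcard2 (Real.exp_pos _).le).trans ?_
      rw [← Real.exp_add]
      have e1 : γ * r + -((h + i) / 2) = γ + (-(b * h) + -(b * i)) := by
        rw [hr, hb]; ring
      rw [e1, Real.exp_add, Real.exp_add, ← mul_assoc]
      apply mul_le_mul_of_nonneg_right _ (Real.exp_pos _).le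
      apply mul_le_mul_of_nonneg_right _ (Real.exp_pos _).le
      have h5 : Real.exp (1 / 2 : ℝ) ≤ 2 := by
        have h6 : Real.exp (1 / 2 : ℝ) ^ 2 ≤ 2 ^ 2 := by
          rw [← Real.exp_nat_mul]
          norm_num
          have h8 := Real.exp_one_lt_d9
          linarith
        exact le_of_pow_le_pow_left₀ (by norm_num) (by norm_num) h6
      exact (Real.exp_le_exp.2 hγ.le).trans h5
  refine (Finset.sum_le_sum hterm).trans ?_
  rw [← Finset.mul_sum]
  calc 2 * Real.exp (-(b * h)) * ∑ i ∈ range (⌊R - h⌋₊ + 1), Real.exp (-(b * i)) ≤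
        2 * Real.exp (-(b * h)) * (1 / (1 - Real.exp (-b))) :=
        mul_le_mul_of_nonneg_left (geom_le hb0 _) (by positivity)
    _ = _ := by ring

end Pool.Agent.V8H35.NV
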