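import Pool.Agent.V8H35.NV.N3
import Pool.Agent.R311.RES.C1
import Pool.Agent.R311.RES.A5
import Pool.Agent.R311.RES.B4

/-!
# The mollified first moment over a coset
-/

set_option autoImplicit false

namespace Pool.Agent.V8H35.NV

open Finset
open scoped Classical
open Pool.Agent.R311.RES (ann hzv L_half hzv_two card_mul orth val_pos sum_rsqrt un un_val)
open ArithmeticFunction (moebius)

variable {q : ℕ} [Fact q.Prime]

/-- the squarefree integers up to `D` composed of primes of `B` -/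
noncomputable def DD (B : Finset ℕ) (D : ℕ) : Finset ℕ :=
  (Icc 1 D).filter (fun d => Squarefree d ∧ d.primeFactors ⊆ B)

lemma mem_DD {B : Finset ℕ} {D d : ℕ} : d ∈ DD B D ↔ (1 ≤ d ∧ d ≤ D) ∧ Squarefree d ∧
    d.primeFactors ⊆ B := by
  rw [DD, mem_filter, mem_Icc]

/-- the coefficients of the mollifier -/
noncomputable def wd (d : ℕ) : ℝ := (moebius d : ℝ) * (d : ℝ) ^ (-(1 / 2 : ℝ))

lemma abs_moebius_le (d : ℕ) : |((moebius d : ℤ) : ℝ)| ≤ 1 := by
  have := ArithmeticFunction.abs_moebius_le_one (n := d)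
  exact_mod_cast this

lemma abs_wd_le (d : ℕ) : |wd d| ≤ (d : ℝ) ^ (-(1 / 2 : ℝ)) := by
  unfold wd
  rw [abs_mul, abs_of_nonneg (show (0 : ℝ) ≤ (d : ℝ) ^ (-(1 / 2 : ℝ)) by positivity)]
  calc |((moebius d : ℤ) : ℝ)| * (d : ℝ) ^ (-(1 / 2 : ℝ)) ≤ 1 * (d : ℝ) ^ (-(1 / 2 : ℝ)) :=
        mul_le_mul_of_nonneg_right (abs_moebius_le d) (by positivity)
    _ = _ := one_mul _

/-- the mollifier -/
noncomputable def Mo (B : Finset ℕ) (D : ℕ) (χ : DirichletCharacter ℂ q) : ℂ :=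
  ∑ d ∈ DD B D, (wd d : ℂ) * χ (d : ZMod q)

lemma sum_DD_le (B : Finset ℕ) (D : ℕ) :
    ∑ d ∈ DD B D, (d : ℝ) ^ (-(1 / 2 : ℝ)) ≤ 2 * Real.sqrt D := by
  refine le_trans ?_ (sum_rsqrt D)
  exact Finset.sum_le_sum_of_subset_of_nonneg (filter_subset _ _) (fun n _ _ => by positivity)

lemma norm_Mo_le (B : Finset ℕ) (D : ℕ) (χ : DirichletCharacter ℂ q) :
    ‖Mo B D χ‖ ≤ ∑ d ∈ DD B D, (d : ℝ) ^ (-(1 / 2 : ℝ)) := by
  unfold Mo
  refine (norm_sum_le _ _).trans (Finset.sum_le_sum fun d _ => ?_)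
  rw [norm_mul, Complex.norm_real, Real.norm_eq_abs]
  calc |wd d| * ‖χ (d : ZMod q)‖ ≤ (d : ℝ) ^ (-(1 / 2 : ℝ)) * 1 :=
        mul_le_mul (abs_wd_le d) (DirichletCharacter.norm_le_one _ _) (norm_nonneg _) (by positivity)
    _ = _ := mul_one _

/-- the mollifier is not larger than the product over the primes of `B` -/
lemma norm_Mo_le' (B : Finset ℕ) (D : ℕ) (χ : DirichletCharacter ℂ q) :
    ‖Mo B D χ‖ ≤ Real.exp (∑ p ∈ B, (p : ℝ) ^ (-(1 / 2 : ℝ))) := by
  refine (norm_Mo_le B D χ).trans ?_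
  have h1 : ∑ d ∈ DD B D, (d : ℝ) ^ (-(1 / 2 : ℝ)) =
      ∑ d ∈ DD B D, ∏ p ∈ d.primeFactors, (p : ℝ) ^ (-(1 / 2 : ℝ)) := by
    apply Finset.sum_congr rfl
    intro d hd
    rw [mem_DD] at hd
    rw [Real.finsetProd_rpow _ _ (fun p _ => by positivity), ← Nat.cast_prod,
      Nat.prod_primeFactors_of_squarefree hd.2.1]
  have hinj : Set.InjOn (fun d : ℕ => d.primeFactors) (DD B D : Set ℕ) := by
    intro d hd d' hd' h
    rw [mem_coe, mem_DD] at hd hd'
    simp only at h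
    rw [← Nat.prod_primeFactors_of_squarefree hd.2.1, h, Nat.prod_primeFactors_of_squarefree hd'.2.1]
  rw [h1, ← Finset.sum_image (f := fun S : Finset ℕ => ∏ p ∈ S, (p : ℝ) ^ (-(1 / 2 : ℝ))) hinj]
  have h2 : (DD B D).image (fun d : ℕ => d.primeFactors) ⊆ B.powerset := by
    intro S hS
    rw [mem_image] at hS
    obtain ⟨d, hd, rfl⟩ := hS
    rw [mem_powerset]
    exact (mem_DD.1 hd).2.2
  refine (Finset.sum_le_sum_of_subset_of_nonneg h2 (fun S _ _ => by positivity)).trans ?_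
  rw [← Finset.prod_one_add]
  exact Real.prod_one_add_le_exp_sum _ (fun p => by positivity)

/-- the sum of the Möbius function over the divisors of `n` in `DD B D` -/
noncomputable def gf (B : Finset ℕ) (D n : ℕ) : ℤ := ∑ d ∈ (DD B D).filter (fun d => d ∣ n), moebius d

lemma gf_one {B : Finset ℕ} {D : ℕ} (hD : 1 ≤ D) : gf B D 1 = 1 := by
  unfold gf
  have h1 : (DD B D).filter (fun d => d ∣ 1) = {1} := by
    ext d
    rw [mem_filter, mem_DD, mem_singleton, Nat.dvd_one]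
    constructor
    · exact fun h => h.2
    · rintro rfl
      exact ⟨⟨⟨le_rfl, hD⟩, squarefree_one, by simp⟩, rfl⟩
  rw [h1, sum_singleton, ArithmeticFunction.moebius_apply_one]

lemma sum_moebius_divisors {m : ℕ} (hm : 1 < m) : ∑ d ∈ m.divisors, moebius d = 0 := by
  have h1 := congrArg (fun f : ArithmeticFunction ℤ => f m) ArithmeticFunction.moebius_mul_coe_zeta
  simp only [ArithmeticFunction.coe_mul_zeta_apply] at h1
  rw [h1, ArithmeticFunction.one_apply_ne (by omega)]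

lemma gf_small {B : Finset ℕ} (hB : ∀ p ∈ B, p.Prime) {D n : ℕ} (hn : 0 < n) (hnD : n ≤ D)
    (h : ∃ p ∈ B, p ∣ n) : gf B D n = 0 := by
  set S := n.primeFactors ∩ B with hS
  have hSp : ∀ p ∈ S, p.Prime := fun p hp => hB p (mem_inter.1 hp).2
  set m : ℕ := ∏ p ∈ S, p with hm
  have hmpf : m.primeFactors = S := Nat.primeFactors_prod hSp
  have hmn : m ∣ n := Finset.prod_primes_dvd n (fun p hp => (hSp p hp).prime)
    (fun p hp => Nat.dvd_of_mem_primeFactors (mem_inter.1 hp).1)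
  have hmsq : Squarefree m := by
    rw [hm]
    refine Finset.squarefree_prod_of_pairwise_isCoprime (fun p hp p' hp' hpp => ?_)
      (fun p hp => (hSp p hp).squarefree)
    show IsRelPrime p p'
    exact Nat.coprime_iff_isRelPrime.1
      ((Nat.coprime_primes (hSp p (mem_coe.1 hp)) (hSp p' (mem_coe.1 hp'))).2 hpp)
  have hm0 : 0 < m := Nat.pos_of_dvd_of_pos hmn hn
  have hm1 : 1 < m := by
    obtain ⟨p, hp, hpn⟩ := h
    have h1 : p ∈ S := mem_inter.2 ⟨Nat.mem_primeFactors.2 ⟨hB p hp, hpn, hn.ne'⟩, hp⟩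
    have h2 := Nat.le_of_dvd hm0 (Finset.dvd_prod_of_mem (fun p => p) h1)
    exact lt_of_lt_of_le (hB p hp).one_lt h2
  unfold gf
  rw [← sum_moebius_divisors hm1]
  apply Finset.sum_congr _ (fun _ _ => rfl)
  ext d
  rw [mem_filter, mem_DD, Nat.mem_divisors]
  constructor
  · rintro ⟨⟨⟨h1, h2⟩, h3, h4⟩, h5⟩
    refine ⟨?_, hm0.ne'⟩
    rw [← Nat.prod_primeFactors_of_squarefree h3]
    apply Finset.prod_dvd_prod_of_subset
    intro p hp
    exact mem_inter.2 ⟨Nat.primeFactors_mono h5 hn.ne' hp, h4 hp⟩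
  · rintro ⟨h1, -⟩
    have h2 : d ∣ n := h1.trans hmn
    refine ⟨⟨⟨Nat.pos_of_dvd_of_pos h2 hn, (Nat.le_of_dvd hn h2).trans hnD⟩,
      hmsq.squarefree_of_dvd h1, ?_⟩, h2⟩
    refine (Nat.primeFactors_mono h1 hm0.ne').trans ?_
    rw [hmpf]
    exact inter_subset_right

lemma gf_free {B : Finset ℕ} {D n : ℕ} (hD : 1 ≤ D) (h : ∀ p ∈ B, ¬ p ∣ n) : gf B D n = 1 := by
  unfold gf
  have h1 : (DD B D).filter (fun d => d ∣ n) = {1} := by
    ext d
    rw [mem_filter, mem_DD, mem_singleton]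
    constructor
    · rintro ⟨⟨⟨h1, h2⟩, h3, h4⟩, h5⟩
      by_contra hne
      obtain ⟨p, hpp, hpd⟩ := Nat.exists_prime_and_dvd hne
      exact h p (h4 (Nat.mem_primeFactors.2 ⟨hpp, hpd, by omega⟩)) (hpd.trans h5)
    · rintro rfl
      exact ⟨⟨⟨le_rfl, hD⟩, squarefree_one, by simp⟩, one_dvd _⟩
  rw [h1, sum_singleton, ArithmeticFunction.moebius_apply_one]

lemma gf_le (B : Finset ℕ) (D : ℕ) {n : ℕ} (hn : 0 < n) : |(gf B D n : ℝ)| ≤ n.divisors.card := by
  unfold gf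
  push_cast
  refine (Finset.abs_sum_le_sum_abs _ _).trans ?_
  refine (Finset.sum_le_card_nsmul _ _ 1 fun d _ => abs_moebius_le d).trans ?_
  rw [nsmul_eq_mul, mul_one]
  have h1 : (DD B D).filter (fun d => d ∣ n) ⊆ n.divisors := by
    intro d hd
    rw [mem_filter] at hd
    exact Nat.mem_divisors.2 ⟨hd.2, hn.ne'⟩
  exact_mod_cast card_le_card h1

end Pool.Agent.V8H35.NV
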