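import Pool.Agent.V8H35.NV.N4

/-!
# The mollified first moment over a coset: the estimate
-/

set_option autoImplicit false

namespace Pool.Agent.V8H35.NV

open Finset
open scoped Classical
open Pool.Agent.R311.RES (ann hzv L_half hzv_two card_mul orth val_pos sum_rsqrt un un_val)
open ArithmeticFunction (moebius)

variable {q : ℕ} [Fact q.Prime]

lemma un_val' {d : ℕ} (h0 : 0 < d) (hd : d < q) :
    ((un q d : (ZMod q)ˣ) : ZMod q) = (d : ZMod q) :=
  un_val (((Nat.Prime.coprime_iff_not_dvd Fact.out).2 (Nat.not_dvd_of_pos_of_lt h0 hd)).symm)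

lemma un_natVal {d : ℕ} (h0 : 0 < d) (hd : d < q) : ((un q d : (ZMod q)ˣ) : ZMod q).val = d := by
  rw [un_val' h0 hd, ZMod.val_natCast_of_lt hd]

/-- the classes `a` with `a d` in the annihilator -/
noncomputable def KD (H : Subgroup (DirichletCharacter ℂ q)) (d : ℕ) : Finset (ZMod q)ˣ :=
  univ.filter (fun a => a * un q d ∈ ann H)

lemma card_KD (H : Subgroup (DirichletCharacter ℂ q)) (d : ℕ) :
    (KD H d).card = Fintype.card (ann H) := by
  rw [Fintype.card_subtype]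
  refine Finset.card_bij' (fun a _ => a * un q d) (fun a _ => a * (un q d)⁻¹) ?_ ?_ ?_ ?_
  · intro a ha
    rw [KD, mem_filter] at ha
    rw [mem_filter]
    exact ⟨mem_univ _, ha.2⟩
  · intro a ha
    rw [mem_filter] at ha
    rw [KD, mem_filter]
    exact ⟨mem_univ _, by rw [inv_mul_cancel_right]; exact ha.2⟩
  · intro a _
    rw [mul_inv_cancel_right]
  · intro a _
    rw [inv_mul_cancel_right]

lemma moment (H : Subgroup (DirichletCharacter ℂ q)) (χ₀ : DirichletCharacter ℂ q) (B : Finset ℕ)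
    (D : ℕ) (hDq : D < q) :
    ∑ ψ : H, DirichletCharacter.LFunction (χ₀ * (ψ : DirichletCharacter ℂ q)) (1 / 2) *
        Mo B D (χ₀ * (ψ : DirichletCharacter ℂ q)) =
      (Fintype.card H : ℂ) * ∑ d ∈ DD B D, ∑ a ∈ KD H d, (wd d : ℂ) * hzv q a *
        χ₀ ((a * un q d : (ZMod q)ˣ) : ZMod q) := by
  have h1 : ∀ ψ : H, DirichletCharacter.LFunction (χ₀ * (ψ : DirichletCharacter ℂ q)) (1 / 2) *
        Mo B D (χ₀ * (ψ : DirichletCharacter ℂ q)) =
      ∑ d ∈ DD B D, ∑ a : (ZMod q)ˣ, (wd d : ℂ) * hzv q a *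
        χ₀ ((a * un q d : (ZMod q)ˣ) : ZMod q) *
        (ψ : DirichletCharacter ℂ q) ((a * un q d : (ZMod q)ˣ) : ZMod q) := by
    intro ψ
    rw [L_half, Mo, mul_comm, Finset.sum_mul_sum]
    apply Finset.sum_congr rfl
    intro d hd
    rw [mem_DD] at hd
    apply Finset.sum_congr rfl
    intro a _
    rw [Units.val_mul, un_val' hd.1.1 (lt_of_le_of_lt hd.1.2 hDq), MulChar.mul_apply,
      MulChar.mul_apply, map_mul, map_mul]
    ring
  rw [Finset.sum_congr rfl (fun ψ _ => h1 ψ), Finset.sum_comm, Finset.mul_sum]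
  apply Finset.sum_congr rfl
  intro d _
  rw [Finset.sum_comm, KD, Finset.sum_filter, Finset.mul_sum]
  apply Finset.sum_congr rfl
  intro a _
  rw [← Finset.mul_sum, orth]
  split_ifs
  · ring
  · ring

/-- the term of the main sum -/
noncomputable def Ft (χ₀ : DirichletCharacter ℂ q) (d : ℕ) (a : (ZMod q)ˣ) : ℂ :=
  (wd d : ℂ) * ((((a : ZMod q).val : ℝ) ^ (-(1 / 2 : ℝ)) : ℝ) : ℂ) *
    χ₀ ((a * un q d : (ZMod q)ˣ) : ZMod q)

lemma norm_Ft_le (χ₀ : DirichletCharacter ℂ q) (d : ℕ) (a : (ZMod q)ˣ) :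
    ‖Ft χ₀ d a‖ ≤ (d : ℝ) ^ (-(1 / 2 : ℝ)) * ((a : ZMod q).val : ℝ) ^ (-(1 / 2 : ℝ)) := by
  unfold Ft
  rw [norm_mul, norm_mul, Complex.norm_real, Complex.norm_real, Real.norm_eq_abs,
    Real.norm_of_nonneg (by positivity)]
  calc |wd d| * ((a : ZMod q).val : ℝ) ^ (-(1 / 2 : ℝ)) * _ ≤
        (d : ℝ) ^ (-(1 / 2 : ℝ)) * ((a : ZMod q).val : ℝ) ^ (-(1 / 2 : ℝ)) * 1 := by
        apply mul_le_mul _ (DirichletCharacter.norm_le_one _ _) (norm_nonneg _) (by positivity)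
        exact mul_le_mul_of_nonneg_right (abs_wd_le d) (by positivity)
    _ = _ := mul_one _

lemma stepA (H : Subgroup (DirichletCharacter ℂ q)) (χ₀ : DirichletCharacter ℂ q) (B : Finset ℕ)
    (D : ℕ) : ‖∑ d ∈ DD B D, ∑ a ∈ KD H d, (wd d : ℂ) * hzv q a *
        χ₀ ((a * un q d : (ZMod q)ˣ) : ZMod q) - ∑ d ∈ DD B D, ∑ a ∈ KD H d, Ft χ₀ d a‖ ≤
      6 * Real.sqrt D * (Fintype.card (ann H) : ℝ) * (q : ℝ) ^ (-(1 / 2 : ℝ)) := by
  rw [← Finset.sum_sub_distrib]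
  have h1 : ∀ d ∈ DD B D, ‖∑ a ∈ KD H d, (wd d : ℂ) * hzv q a *
        χ₀ ((a * un q d : (ZMod q)ˣ) : ZMod q) - ∑ a ∈ KD H d, Ft χ₀ d a‖ ≤
      (d : ℝ) ^ (-(1 / 2 : ℝ)) * ((Fintype.card (ann H) : ℝ) * (3 * (q : ℝ) ^ (-(1 / 2 : ℝ)))) := by
    intro d _
    rw [← Finset.sum_sub_distrib]
    refine (norm_sum_le _ _).trans ?_
    have h2 : ∀ a ∈ KD H d, ‖(wd d : ℂ) * hzv q a * χ₀ ((a * un q d : (ZMod q)ˣ) : ZMod q) -
        Ft χ₀ d a‖ ≤ (d : ℝ) ^ (-(1 / 2 : ℝ)) * (3 * (q : ℝ) ^ (-(1 / 2 : ℝ))) := by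
      intro a _
      have e : (wd d : ℂ) * hzv q a * χ₀ ((a * un q d : (ZMod q)ˣ) : ZMod q) - Ft χ₀ d a =
          (wd d : ℂ) * (hzv q a - ((((a : ZMod q).val : ℝ) ^ (-(1 / 2 : ℝ)) : ℝ) : ℂ)) *
            χ₀ ((a * un q d : (ZMod q)ˣ) : ZMod q) := by
        unfold Ft; ring
      rw [e, norm_mul, norm_mul, Complex.norm_real, Real.norm_eq_abs]
      calc |wd d| * ‖hzv q a - ((((a : ZMod q).val : ℝ) ^ (-(1 / 2 : ℝ)) : ℝ) : ℂ)‖ * _ ≤
          (d : ℝ) ^ (-(1 / 2 : ℝ)) * (3 * (q : ℝ) ^ (-(1 / 2 : ℝ))) * 1 := by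
            apply mul_le_mul _ (DirichletCharacter.norm_le_one _ _) (norm_nonneg _) (by positivity)
            exact mul_le_mul (abs_wd_le d) (hzv_two a) (norm_nonneg _) (by positivity)
        _ = _ := mul_one _
    refine (Finset.sum_le_card_nsmul _ _ _ h2).trans ?_
    rw [nsmul_eq_mul, card_KD]
    apply le_of_eq
    ring
  refine (norm_sum_le _ _).trans ((Finset.sum_le_sum h1).trans ?_)
  rw [← Finset.sum_mul]
  calc (∑ d ∈ DD B D, (d : ℝ) ^ (-(1 / 2 : ℝ))) *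
        ((Fintype.card (ann H) : ℝ) * (3 * (q : ℝ) ^ (-(1 / 2 : ℝ)))) ≤
      (2 * Real.sqrt D) * ((Fintype.card (ann H) : ℝ) * (3 * (q : ℝ) ^ (-(1 / 2 : ℝ)))) :=
        mul_le_mul_of_nonneg_right (sum_DD_le B D) (by positivity)
    _ = _ := by ring

lemma stepB (H : Subgroup (DirichletCharacter ℂ q)) (χ₀ : DirichletCharacter ℂ q) (B : Finset ℕ)
    (D : ℕ) : ‖∑ d ∈ DD B D, ∑ a ∈ (KD H d).filter (fun a : (ZMod q)ˣ => ¬ (a : ZMod q).val * d < q),
        Ft χ₀ d a‖ ≤ D * (Fintype.card (ann H) : ℝ) * (q : ℝ) ^ (-(1 / 2 : ℝ)) := by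
  have hq : (0 : ℝ) < q := by exact_mod_cast (Nat.Prime.pos Fact.out : 0 < q)
  have h1 : ∀ d ∈ DD B D, ‖∑ a ∈ (KD H d).filter (fun a : (ZMod q)ˣ => ¬ (a : ZMod q).val * d < q),
        Ft χ₀ d a‖ ≤ (Fintype.card (ann H) : ℝ) * (q : ℝ) ^ (-(1 / 2 : ℝ)) := by
    intro d _
    refine (norm_sum_le _ _).trans ?_
    have h2 : ∀ a ∈ (KD H d).filter (fun a : (ZMod q)ˣ => ¬ (a : ZMod q).val * d < q), ‖Ft χ₀ d a‖ ≤
        (q : ℝ) ^ (-(1 / 2 : ℝ)) := by
      intro a ha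
      rw [mem_filter, not_lt] at ha
      refine (norm_Ft_le χ₀ d a).trans ?_
      rw [← Real.mul_rpow (by positivity) (by positivity)]
      apply Real.rpow_le_rpow_of_nonpos hq _ (by norm_num)
      have h3 : ((q : ℕ) : ℝ) ≤ (((a : ZMod q).val * d : ℕ) : ℝ) := by exact_mod_cast ha.2
      push_cast at h3
      linarith
    refine (Finset.sum_le_card_nsmul _ _ _ h2).trans ?_
    rw [nsmul_eq_mul]
    apply mul_le_mul_of_nonneg_right _ (by positivity)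
    rw [← card_KD H d]
    exact_mod_cast card_le_card (filter_subset _ _)
  refine (norm_sum_le _ _).trans ((Finset.sum_le_card_nsmul _ _ _ h1).trans ?_)
  rw [nsmul_eq_mul, mul_assoc]
  apply mul_le_mul_of_nonneg_right _ (by positivity)
  have h3 : (DD B D).card ≤ D := by
    refine (card_le_card (filter_subset _ _)).trans ?_
    rw [Nat.card_Icc]; omega
  exact_mod_cast h3

/-- the integers below `q` in the annihilator -/
noncomputable def NN (H : Subgroup (DirichletCharacter ℂ q)) : Finset ℕ :=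
  (range q).filter (fun n => 0 < n ∧ InK q (ann H) n)

lemma mem_NN {H : Subgroup (DirichletCharacter ℂ q)} {n : ℕ} : n ∈ NN H ↔
    n < q ∧ 0 < n ∧ InK q (ann H) n := by
  rw [NN, mem_filter, mem_range]

lemma stepC (H : Subgroup (DirichletCharacter ℂ q)) (χ₀ : DirichletCharacter ℂ q) (B : Finset ℕ)
    (D : ℕ) (hDq : D < q) :
    ∑ d ∈ DD B D, ∑ a ∈ (KD H d).filter (fun a : (ZMod q)ˣ => (a : ZMod q).val * d < q), Ft χ₀ d a =
      ∑ n ∈ NN H, (((n : ℝ) ^ (-(1 / 2 : ℝ)) : ℝ) : ℂ) * χ₀ (n : ZMod q) * (gf B D n : ℂ) := by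
  have : NeZero q := ⟨(Nat.Prime.pos Fact.out).ne'⟩
  have h1 : ∀ d ∈ DD B D, ∑ a ∈ (KD H d).filter (fun a : (ZMod q)ˣ => (a : ZMod q).val * d < q), Ft χ₀ d a =
      ∑ n ∈ (NN H).filter (fun n => d ∣ n), (((n : ℝ) ^ (-(1 / 2 : ℝ)) : ℝ) : ℂ) *
        χ₀ (n : ZMod q) * ((moebius d : ℤ) : ℂ) := by
    intro d hd
    rw [mem_DD] at hd
    have hd0 : 0 < d := hd.1.1
    have hdq : d < q := lt_of_le_of_lt hd.1.2 hDq
    have hcast : ∀ a : (ZMod q)ˣ, ((a * un q d : (ZMod q)ˣ) : ZMod q) =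
        (((a : ZMod q).val * d : ℕ) : ZMod q) := by
      intro a
      rw [Units.val_mul, un_val' hd0 hdq]
      push_cast
      rw [ZMod.natCast_zmod_val]
    refine Finset.sum_bij (fun a _ => (a : ZMod q).val * d) ?_ ?_ ?_ ?_
    · intro a ha
      rw [mem_filter, KD, mem_filter] at ha
      rw [mem_filter, mem_NN]
      refine ⟨⟨ha.2, Nat.mul_pos (val_pos a) hd0, a * un q d, ha.1.2, hcast a⟩, Dvd.intro_left _ rfl⟩
    · intro a _ a' _ h
      have h2 := Nat.eq_of_mul_eq_mul_right hd0 h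
      exact Units.ext (ZMod.val_injective q h2)
    · intro n hn
      rw [mem_filter, mem_NN] at hn
      obtain ⟨⟨hnq, hn0, u, hu, hun⟩, m, rfl⟩ := hn
      have hm0 : 0 < m := Nat.pos_of_mul_pos_left hn0
      have hmq : m < q := lt_of_le_of_lt (Nat.le_mul_of_pos_left _ hd0) hnq
      have hval := un_natVal hm0 hmq
      refine ⟨un q m, ?_, by rw [hval]; ring⟩
      rw [mem_filter, KD, mem_filter, hval]
      refine ⟨⟨mem_univ _, ?_⟩, by rw [mul_comm]; exact hnq⟩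
      have h2 : un q m * un q d = u := by
        apply Units.ext
        rw [hcast, hval, hun]
        congr 1
        ring
      rw [h2]
      exact hu
    · intro a _
      unfold Ft wd
      rw [hcast]
      push_cast
      have hv : (0 : ℝ) ≤ ((a : ZMod q).val : ℝ) := Nat.cast_nonneg _
      rw [Real.mul_rpow hv (Nat.cast_nonneg _)]
      push_cast
      ring
  rw [Finset.sum_congr rfl h1]
  have h2 : ∀ d ∈ DD B D, ∑ n ∈ (NN H).filter (fun n => d ∣ n), (((n : ℝ) ^ (-(1 / 2 : ℝ)) : ℝ) : ℂ) *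
        χ₀ (n : ZMod q) * ((moebius d : ℤ) : ℂ) = ∑ n ∈ NN H, if d ∣ n then
        (((n : ℝ) ^ (-(1 / 2 : ℝ)) : ℝ) : ℂ) * χ₀ (n : ZMod q) * ((moebius d : ℤ) : ℂ) else 0 :=
    fun d _ => Finset.sum_filter _ _
  rw [Finset.sum_congr rfl h2, Finset.sum_comm]
  apply Finset.sum_congr rfl
  intro n _
  rw [← Finset.sum_filter, ← Finset.mul_sum]
  unfold gf
  push_cast
  rfl

/-- the mollified first moment -/
theorem first_moment (H : Subgroup (DirichletCharacter ℂ q)) (χ₀ : DirichletCharacter ℂ q)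
    (B : Finset ℕ) (hB : ∀ p ∈ B, p.Prime) (D : ℕ) (hD : 1 ≤ D) (hDq : D < q) (τ Lg : ℝ)
    (hτ : ∀ n : ℕ, 0 < n → n < q → (n.divisors.card : ℝ) ≤ τ)
    (hLg : ∑ n ∈ (NN H).filter (fun n => D < n), (n : ℝ) ^ (-(1 / 2 : ℝ)) ≤ Lg) :
    ‖∑ ψ : H, DirichletCharacter.LFunction (χ₀ * (ψ : DirichletCharacter ℂ q)) (1 / 2) *
        Mo B D (χ₀ * (ψ : DirichletCharacter ℂ q)) - (Fintype.card H : ℂ)‖ ≤
      (Fintype.card H : ℝ) * (7 * D * (Fintype.card (ann H) : ℝ) * (q : ℝ) ^ (-(1 / 2 : ℝ)) +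
        ∑ n ∈ (FS q (ann H) (((range q).filter Nat.Prime) \ B) (Real.log D)).erase 1,
          (n : ℝ) ^ (-(1 / 2 : ℝ)) + τ * Lg) := by
  have hq : (0 : ℝ) < q := by exact_mod_cast (Nat.Prime.pos Fact.out : 0 < q)
  have hq1 : 1 < q := Nat.Prime.one_lt Fact.out
  have hτ1 : 1 ≤ τ := by
    have := hτ 1 one_pos hq1
    simpa using this
  set κ : ℝ := (Fintype.card (ann H) : ℝ) with hκ
  have hκ1 : 1 ≤ κ := by
    have : 1 ≤ Fintype.card (ann H) := Fintype.card_pos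
    rw [hκ]; exact_mod_cast this
  set S : ℂ := ∑ d ∈ DD B D, ∑ a ∈ KD H d, (wd d : ℂ) * hzv q a *
        χ₀ ((a * un q d : (ZMod q)ˣ) : ZMod q) with hS
  rw [moment H χ₀ B D hDq, ← hS]
  have e0 : (Fintype.card H : ℂ) * S - (Fintype.card H : ℂ) = (Fintype.card H : ℂ) * (S - 1) := by ring
  rw [e0, norm_mul, Complex.norm_natCast]
  apply mul_le_mul_of_nonneg_left _ (Nat.cast_nonneg _)
  set S' : ℂ := ∑ d ∈ DD B D, ∑ a ∈ KD H d, Ft χ₀ d a with hS'
  have hA := stepA H χ₀ B D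
  rw [← hS, ← hS'] at hA
  have hBb := stepB H χ₀ B D
  have hC := stepC H χ₀ B D hDq
  have hsplit : S' = ∑ d ∈ DD B D, ∑ a ∈ (KD H d).filter (fun a : (ZMod q)ˣ => (a : ZMod q).val * d < q),
      Ft χ₀ d a + ∑ d ∈ DD B D, ∑ a ∈ (KD H d).filter (fun a : (ZMod q)ˣ => ¬ (a : ZMod q).val * d < q),
      Ft χ₀ d a := by
    rw [hS', ← Finset.sum_add_distrib]
    apply Finset.sum_congr rfl
    intro d _
    exact (Finset.sum_filter_add_sum_filter_not _ _ _).symm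
  have h1N : 1 ∈ NN H := mem_NN.2 ⟨hq1, one_pos, InK.one⟩
  set t : ℕ → ℂ := fun n => (((n : ℝ) ^ (-(1 / 2 : ℝ)) : ℝ) : ℂ) * χ₀ (n : ZMod q) * (gf B D n : ℂ) with ht
  have ht1 : t 1 = 1 := by
    simp only [ht]
    rw [gf_one hD]
    simp
  have htn : ∀ n, ‖t n‖ ≤ (n : ℝ) ^ (-(1 / 2 : ℝ)) * |(gf B D n : ℝ)| := by
    intro n
    simp only [ht]
    rw [norm_mul, norm_mul, Complex.norm_real, Real.norm_of_nonneg (by positivity)]
    have h1 : ‖((gf B D n : ℤ) : ℂ)‖ = |(gf B D n : ℝ)| := by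
      rw [Complex.norm_intCast]
    rw [h1]
    calc (n : ℝ) ^ (-(1 / 2 : ℝ)) * ‖χ₀ (n : ZMod q)‖ * |(gf B D n : ℝ)| ≤
          (n : ℝ) ^ (-(1 / 2 : ℝ)) * 1 * |(gf B D n : ℝ)| := by
          apply mul_le_mul_of_nonneg_right _ (abs_nonneg _)
          exact mul_le_mul_of_nonneg_left (DirichletCharacter.norm_le_one _ _) (by positivity)
      _ = _ := by rw [mul_one]
  have hsum : ∑ n ∈ NN H, t n = 1 + ∑ n ∈ (NN H).erase 1, t n := by
    rw [← Finset.add_sum_erase _ _ h1N, ht1]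
  -- the short part
  set V : Finset ℕ := ((range q).filter Nat.Prime) \ B with hV
  have hshort : ‖∑ n ∈ ((NN H).erase 1).filter (fun n => n ≤ D), t n‖ ≤
      ∑ n ∈ (FS q (ann H) V (Real.log D)).erase 1, (n : ℝ) ^ (-(1 / 2 : ℝ)) := by
    refine (norm_sum_le _ _).trans ?_
    have h1 : ∀ n ∈ ((NN H).erase 1).filter (fun n => n ≤ D), ‖t n‖ ≤
        if (∀ p ∈ B, ¬ p ∣ n) then (n : ℝ) ^ (-(1 / 2 : ℝ)) else 0 := by
      intro n hn
      rw [mem_filter, mem_erase, mem_NN] at hn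
      obtain ⟨⟨-, -, hn0, -⟩, hnD⟩ := hn
      split_ifs with hfree
      · refine (htn n).trans ?_
        rw [gf_free hD hfree]
        simp
      · push Not at hfree
        refine (htn n).trans ?_
        rw [gf_small hB hn0 hnD hfree]
        simp
    refine (Finset.sum_le_sum h1).trans ?_
    rw [← Finset.sum_filter]
    apply Finset.sum_le_sum_of_subset_of_nonneg _ (fun n _ _ => by positivity)
    intro n hn
    rw [mem_filter, mem_filter, mem_erase, mem_NN] at hn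
    obtain ⟨⟨⟨hn1, hnq, hn0, hnK⟩, hnD⟩, hfree⟩ := hn
    rw [mem_erase, mem_FS]
    refine ⟨hn1, hnq, hn0, ?_, ?_, hnK⟩
    · intro p hp
      have hpp := Nat.prime_of_mem_primeFactors hp
      have hpd := Nat.dvd_of_mem_primeFactors hp
      rw [hV, mem_sdiff, mem_filter, mem_range]
      exact ⟨⟨lt_of_le_of_lt (Nat.le_of_dvd hn0 hpd) hnq, hpp⟩, fun h => hfree p h hpd⟩
    · exact Real.log_le_log (by exact_mod_cast hn0) (by exact_mod_cast hnD)
  -- the long part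
  have hD0 : (0 : ℝ) < D := by exact_mod_cast hD
  have hlong : ‖∑ n ∈ ((NN H).erase 1).filter (fun n => ¬ n ≤ D), t n‖ ≤ τ * Lg := by
    refine (norm_sum_le _ _).trans ?_
    have h1 : ∀ n ∈ ((NN H).erase 1).filter (fun n => ¬ n ≤ D), ‖t n‖ ≤
        τ * (n : ℝ) ^ (-(1 / 2 : ℝ)) := by
      intro n hn
      rw [mem_filter, mem_erase, mem_NN, not_le] at hn
      obtain ⟨⟨-, hnq, hn0, -⟩, hnD⟩ := hn
      refine (htn n).trans ?_
      rw [mul_comm]
      apply mul_le_mul_of_nonneg_right _ (by positivity)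
      exact (gf_le B D hn0).trans (hτ n hn0 hnq)
    refine (Finset.sum_le_sum h1).trans ?_
    rw [← Finset.mul_sum]
    apply mul_le_mul_of_nonneg_left _ (by linarith)
    refine le_trans ?_ hLg
    apply Finset.sum_le_sum_of_subset_of_nonneg _ (fun n _ _ => by positivity)
    intro n hn
    rw [mem_filter, mem_erase, not_le] at hn
    rw [mem_filter]
    exact ⟨hn.1.2, hn.2⟩
  -- assembly
  set X1 := ∑ n ∈ ((NN H).erase 1).filter (fun n => n ≤ D), t n with hX1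
  set X2 := ∑ n ∈ ((NN H).erase 1).filter (fun n => ¬ n ≤ D), t n with hX2
  have hX : ∑ n ∈ (NN H).erase 1, t n = X1 + X2 :=
    (Finset.sum_filter_add_sum_filter_not _ _ _).symm
  set X3 := ∑ d ∈ DD B D, ∑ a ∈ (KD H d).filter (fun a : (ZMod q)ˣ => ¬ (a : ZMod q).val * d < q),
      Ft χ₀ d a with hX3
  have hSS : S' = 1 + (X1 + X2) + X3 := by rw [hsplit, hC, hsum, hX]
  have e1 : S - 1 = (S - S') + X3 + X1 + X2 := by rw [hSS]; ring
  rw [e1]
  have hsq : Real.sqrt D ≤ D := by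
    rw [Real.sqrt_le_left hD0.le]
    have : (1 : ℝ) ≤ D := by exact_mod_cast hD
    nlinarith
  have h1 : 6 * Real.sqrt D * κ * (q : ℝ) ^ (-(1 / 2 : ℝ)) ≤ 6 * D * κ * (q : ℝ) ^ (-(1 / 2 : ℝ)) := by
    apply mul_le_mul_of_nonneg_right _ (by positivity)
    apply mul_le_mul_of_nonneg_right _ (by linarith)
    linarith
  calc ‖(S - S') + X3 + X1 + X2‖ ≤ ‖S - S'‖ + ‖X3‖ + ‖X1‖ + ‖X2‖ := by
        refine (norm_add_le _ _).trans (add_le_add ?_ le_rfl)
        refine (norm_add_le _ _).trans (add_le_add ?_ le_rfl)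
        exact norm_add_le _ _
    _ ≤ _ := by
        have h2 : 7 * (D : ℝ) * κ * (q : ℝ) ^ (-(1 / 2 : ℝ)) =
            6 * D * κ * (q : ℝ) ^ (-(1 / 2 : ℝ)) + D * κ * (q : ℝ) ^ (-(1 / 2 : ℝ)) := by ring
        rw [h2]
        linarith

end Pool.Agent.V8H35.NV
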