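import Pool.Agent.V8H35.NV.N5

/-!
# The long part of the sum over a small subgroup
-/

set_option autoImplicit false

namespace Pool.Agent.V8H35.NV

open Finset
open scoped Classical
open Pool.Agent.R311.RES (sum_rsqrt)

variable {q : ℕ} [Fact q.Prime]

/-- the number of the integers of the subgroup with `n ^ k < q` -/
lemma card_pow_le (K : Subgroup (ZMod q)ˣ) (S : Finset ℕ) {k : ℕ}
    (hS : ∀ n ∈ S, 0 < n ∧ n ^ k < q ∧ InK q K n) {T : ℕ}
    (hT : ∀ n : ℕ, 0 < n → n < q → n.divisors.card ≤ T) :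
    S.card ^ k ≤ T ^ k * Fintype.card K := by
  have h1 : (Fintype.piFinset (fun _ : Fin k => S)).card = S.card ^ k := by
    rw [Fintype.card_piFinset, Finset.prod_const, card_univ, Fintype.card_fin]
  rw [← h1]
  rcases Nat.eq_zero_or_pos k with hk | hk
  · subst hk
    rw [Fintype.card_piFinset]
    simp only [univ_eq_empty, prod_empty, pow_zero, one_mul]
    exact Fintype.card_pos
  set M : Finset ℕ := (Fintype.piFinset (fun _ : Fin k => S)).image (fun f => ∏ i, f i) with hM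
  have hMem : ∀ n ∈ M, 0 < n ∧ n < q ∧ InK q K n := by
    intro n hn
    rw [hM, mem_image] at hn
    obtain ⟨f, hf, rfl⟩ := hn
    rw [Fintype.mem_piFinset] at hf
    refine ⟨Finset.prod_pos fun i _ => (hS _ (hf i)).1, ?_, ?_⟩
    · have h2 : (∏ i, f i) ^ k < q ^ k := by
        rw [← Finset.prod_pow]
        calc ∏ i, f i ^ k < ∏ _i : Fin k, q := by
              apply Finset.prod_lt_prod_of_nonempty
              · intro i _
                exact Nat.pos_of_ne_zero (pow_ne_zero _ (hS _ (hf i)).1.ne')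
              · intro i _
                exact (hS _ (hf i)).2.1
              · exact ⟨⟨0, hk⟩, mem_univ _⟩
          _ = q ^ k := by rw [Finset.prod_const, card_univ, Fintype.card_fin]
      exact lt_of_pow_lt_pow_left₀ k (Nat.zero_le _) h2
    · have : ∀ s : Finset (Fin k), InK q K (∏ i ∈ s, f i) := by
        intro s
        induction s using Finset.induction_on with
        | empty => simpa using InK.one
        | insert a s ha ih =>
          rw [prod_insert ha]
          exact (hS _ (hf a)).2.2.mul ih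
      exact this univ
  have h2 : (Fintype.piFinset (fun _ : Fin k => S)).card ≤ T ^ k * M.card := by
    apply Finset.card_le_mul_card_image
    intro n hn
    have h3 := hMem n hn
    have h4 : ((Fintype.piFinset (fun _ : Fin k => S)).filter (fun f => ∏ i, f i = n)).card ≤
        (Fintype.piFinset (fun _ : Fin k => n.divisors)).card := by
      apply card_le_card
      intro f hf
      rw [mem_filter] at hf
      rw [Fintype.mem_piFinset]
      intro i
      rw [Nat.mem_divisors]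
      refine ⟨?_, h3.1.ne'⟩
      rw [← hf.2]
      exact Finset.dvd_prod_of_mem _ (mem_univ i)
    refine h4.trans ?_
    rw [Fintype.card_piFinset, Finset.prod_const, card_univ, Fintype.card_fin]
    exact Nat.pow_le_pow_left (hT n h3.1 h3.2.1) k
  refine h2.trans (Nat.mul_le_mul_left _ ?_)
  exact card_InK_le _ fun n hn => ⟨(hMem n hn).2.1, (hMem n hn).2.2⟩

/-- the part of the sum with `n ^ k < q ≤ n ^ (k + 1)` -/
lemma sum_k_le (K : Subgroup (ZMod q)ˣ) (S : Finset ℕ) {k : ℕ} (hk : 1 ≤ k)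
    (hS : ∀ n ∈ S, 0 < n ∧ n ^ k < q ∧ InK q K n) (hS' : ∀ n ∈ S, q ≤ n ^ (k + 1)) {T : ℕ}
    (hT : ∀ n : ℕ, 0 < n → n < q → n.divisors.card ≤ T) :
    ∑ n ∈ S, (n : ℝ) ^ (-(1 / 2 : ℝ)) ≤
      T * ((Fintype.card K : ℝ) ^ (1 / (k : ℝ)) * (q : ℝ) ^ (-(1 / (2 * ((k : ℝ) + 1))))) := by
  have hq : (0 : ℝ) < q := by exact_mod_cast (Nat.Prime.pos Fact.out : 0 < q)
  have hk0 : (0 : ℝ) < k := by exact_mod_cast hk
  have h1 : ∀ n ∈ S, (n : ℝ) ^ (-(1 / 2 : ℝ)) ≤ (q : ℝ) ^ (-(1 / (2 * ((k : ℝ) + 1)))) := by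
    intro n hn
    have hn0 : (0 : ℝ) < n := by exact_mod_cast (hS n hn).1
    have h2 : (q : ℝ) ≤ (n : ℝ) ^ ((k : ℝ) + 1) := by
      have h3 := hS' n hn
      have h4 : (q : ℝ) ≤ (n : ℝ) ^ (k + 1) := by exact_mod_cast h3
      rw [← Real.rpow_natCast] at h4
      push_cast at h4
      exact h4
    calc (n : ℝ) ^ (-(1 / 2 : ℝ)) = ((n : ℝ) ^ ((k : ℝ) + 1)) ^ (-(1 / (2 * ((k : ℝ) + 1)))) := by
          rw [← Real.rpow_mul hn0.le]
          congr 1
          field_simp
      _ ≤ _ := Real.rpow_le_rpow_of_nonpos hq h2 (by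
          rw [neg_nonpos]; positivity)
  refine (Finset.sum_le_card_nsmul _ _ _ h1).trans ?_
  rw [nsmul_eq_mul, ← mul_assoc]
  apply mul_le_mul_of_nonneg_right _ (by positivity)
  have h5 : ((S.card : ℝ)) ^ k ≤ (T : ℝ) ^ k * (Fintype.card K : ℝ) := by
    exact_mod_cast card_pow_le K S hS hT
  have h6 : ((T : ℝ) * (Fintype.card K : ℝ) ^ (1 / (k : ℝ))) ^ k = (T : ℝ) ^ k * (Fintype.card K : ℝ) := by
    rw [mul_pow, ← Real.rpow_natCast ((Fintype.card K : ℝ) ^ (1 / (k : ℝ))) k, ← Real.rpow_mul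
      (Nat.cast_nonneg _), one_div, inv_mul_cancel₀ hk0.ne', Real.rpow_one]
  rw [← h6] at h5
  exact le_of_pow_le_pow_left₀ (by omega) (by positivity) h5

/-- the part of the sum with `q ≤ n ^ 2`, `n ≤ N` -/
lemma sum_high_le (K : Subgroup (ZMod q)ˣ) (S : Finset ℕ) {N : ℕ} (hNq : N < q)
    (hS : ∀ n ∈ S, 0 < n ∧ n ≤ N ∧ InK q K n) (hS' : ∀ n ∈ S, q ≤ n ^ 2) {T : ℝ} (hT0 : 0 ≤ T)
    (hT : ∀ n : ℕ, 0 < n → n < q ^ 2 → (n.divisors.card : ℝ) ≤ T) :
    ∑ n ∈ S, (n : ℝ) ^ (-(1 / 2 : ℝ)) ≤ Real.sqrt (2 * T * Fintype.card K * (N / q)) := by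
  have hqp : 0 < q := Nat.Prime.pos Fact.out
  have hq : (0 : ℝ) < q := by exact_mod_cast hqp
  apply Real.le_sqrt_of_sq_le
  set t : ℕ → ℝ := fun n => (n : ℝ) ^ (-(1 / 2 : ℝ)) with ht
  have ht0 : ∀ n, 0 ≤ t n := fun n => by simp only [ht]; positivity
  have e1 : (∑ n ∈ S, t n) ^ 2 = ∑ z ∈ S ×ˢ S, t (z.1 * z.2) := by
    rw [sq, Finset.sum_mul_sum, Finset.sum_product]
    apply Finset.sum_congr rfl
    intro a _
    apply Finset.sum_congr rfl
    intro b _
    simp only [ht]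
    push_cast
    rw [Real.mul_rpow (Nat.cast_nonneg _) (Nat.cast_nonneg _)]
  rw [e1]
  set M : Finset ℕ := (S ×ˢ S).image (fun z => z.1 * z.2) with hM
  have hMem : ∀ m ∈ M, 0 < m ∧ q ≤ m ∧ m ≤ N * N ∧ InK q K m := by
    intro m hm
    rw [hM, mem_image] at hm
    obtain ⟨z, hz, rfl⟩ := hm
    rw [mem_product] at hz
    obtain ⟨a1, a2, a3⟩ := hS _ hz.1
    obtain ⟨b1, b2, b3⟩ := hS _ hz.2
    refine ⟨Nat.mul_pos a1 b1, ?_, Nat.mul_le_mul a2 b2, a3.mul b3⟩
    have h1 : q ^ 2 ≤ (z.1 * z.2) ^ 2 := by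
      rw [mul_pow, sq q]
      exact Nat.mul_le_mul (hS' _ hz.1) (hS' _ hz.2)
    exact (Nat.pow_le_pow_iff_left (by norm_num)).1 h1
  have h2 : ∑ z ∈ S ×ˢ S, t (z.1 * z.2) ≤ ∑ m ∈ M, T * t m := by
    rw [← Finset.sum_fiberwise_of_maps_to (g := fun z : ℕ × ℕ => z.1 * z.2) (t := M)
      (fun z hz => mem_image_of_mem _ hz)]
    apply Finset.sum_le_sum
    intro m hm
    have h3 := hMem m hm
    have h4 : ∑ z ∈ (S ×ˢ S).filter (fun z => z.1 * z.2 = m), t (z.1 * z.2) =
        ∑ _z ∈ (S ×ˢ S).filter (fun z : ℕ × ℕ => z.1 * z.2 = m), t m := by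
      apply Finset.sum_congr rfl
      intro z hz
      rw [mem_filter] at hz
      rw [hz.2]
    rw [h4, Finset.sum_const, nsmul_eq_mul]
    apply mul_le_mul_of_nonneg_right _ (ht0 m)
    have h5 : ((S ×ˢ S).filter (fun z : ℕ × ℕ => z.1 * z.2 = m)).card ≤ m.divisors.card := by
      refine Finset.card_le_card_of_injOn (fun z => z.1) ?_ ?_
      · intro z hz
        rw [mem_coe, mem_filter] at hz
        rw [mem_coe, Nat.mem_divisors]
        exact ⟨by rw [← hz.2]; exact Dvd.intro _ rfl, h3.1.ne'⟩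
      · intro z hz z' hz' h
        rw [mem_coe, mem_filter] at hz hz'
        simp only at h
        have h6 : 0 < z.1 := by
          rcases Nat.eq_zero_or_pos z.1 with h7 | h7
          · have := hz.2
            rw [h7, zero_mul] at this
            omega
          · exact h7
        have h7 : z.1 * z.2 = z.1 * z'.2 := by rw [hz.2, h, hz'.2]
        exact Prod.ext h (Nat.eq_of_mul_eq_mul_left h6 h7)
    refine le_trans (by exact_mod_cast h5) (hT m h3.1 ?_)
    refine lt_of_le_of_lt h3.2.2.1 ?_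
    rw [sq]
    exact Nat.mul_lt_mul'' hNq hNq
  refine h2.trans ?_
  rw [← Finset.mul_sum]
  -- the sum over the multiples
  set R : Finset ℕ := (range q).filter (fun n => 0 < n ∧ InK q K n) with hR
  set J : ℕ := N * N / q with hJ
  have h3 : ∑ m ∈ M, t m ≤ ∑ z ∈ (Icc 1 J) ×ˢ R, t (q * z.1) := by
    have hinj : Set.InjOn (fun m : ℕ => (m / q, m % q)) (M : Set ℕ) := by
      intro m _ m' _ h
      simp only [Prod.mk.injEq] at h
      rw [← Nat.div_add_mod m q, ← Nat.div_add_mod m' q, h.1, h.2]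
    calc ∑ m ∈ M, t m ≤ ∑ m ∈ M, t (q * (m / q, m % q).1) := by
          apply Finset.sum_le_sum
          intro m hm
          have h4 := hMem m hm
          simp only [ht]
          have h5 : 1 ≤ m / q := (Nat.one_le_div_iff hqp).2 h4.2.1
          have h6 : q * (m / q) ≤ m := Nat.mul_div_le m q
          apply Real.rpow_le_rpow_of_nonpos
          · exact_mod_cast Nat.mul_pos hqp h5
          · exact_mod_cast h6
          · norm_num
      _ = ∑ z ∈ M.image (fun m : ℕ => (m / q, m % q)), t (q * z.1) := by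
          rw [Finset.sum_image hinj]
      _ ≤ _ := by
          apply Finset.sum_le_sum_of_subset_of_nonneg _ (fun z _ _ => ht0 _)
          intro z hz
          rw [mem_image] at hz
          obtain ⟨m, hm, rfl⟩ := hz
          have h4 := hMem m hm
          rw [mem_product, mem_Icc, hR, mem_filter, mem_range]
          obtain ⟨u, hu, hum⟩ := h4.2.2.2
          have hmod : ((m % q : ℕ) : ZMod q) = (m : ZMod q) := by simp
          refine ⟨⟨(Nat.one_le_div_iff hqp).2 h4.2.1, Nat.div_le_div_right h4.2.2.1⟩,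
            Nat.mod_lt _ hqp, ?_, u, hu, by rw [hmod, hum]⟩
          rcases Nat.eq_zero_or_pos (m % q) with h5 | h5
          · exfalso
            rw [← hum, h5, Nat.cast_zero] at hmod
            exact u.ne_zero hmod.symm
          · exact h5
  have h4 : ∑ z ∈ (Icc 1 J) ×ˢ R, t (q * z.1) ≤ 2 * (Fintype.card K : ℝ) * (N / q) := by
    rw [Finset.sum_product]
    have e2 : ∀ j ∈ Icc 1 J, ∑ _y ∈ R, t (q * ((j, _y) : ℕ × ℕ).1) =
        (R.card : ℝ) * ((q : ℝ) ^ (-(1 / 2 : ℝ)) * (j : ℝ) ^ (-(1 / 2 : ℝ))) := by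
      intro j _
      dsimp only
      rw [Finset.sum_const, nsmul_eq_mul]
      simp only [ht]
      push_cast
      rw [Real.mul_rpow hq.le (Nat.cast_nonneg _)]
    rw [Finset.sum_congr rfl e2, ← Finset.mul_sum, ← Finset.mul_sum]
    have h5 : (R.card : ℝ) ≤ Fintype.card K := by
      exact_mod_cast card_InK_le R fun n hn => by
        rw [hR, mem_filter, mem_range] at hn
        exact ⟨hn.1, hn.2.2⟩
    have h6 := sum_rsqrt J
    have h7 : Real.sqrt J ≤ N * (q : ℝ) ^ (-(1 / 2 : ℝ)) := by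
      rw [Real.sqrt_le_left (by positivity), mul_pow, ← Real.rpow_natCast ((q : ℝ) ^ (-(1 / 2 : ℝ))) 2,
        ← Real.rpow_mul hq.le]
      have e3 : (-(1 / 2 : ℝ)) * ((2 : ℕ) : ℝ) = -1 := by norm_num
      rw [e3, Real.rpow_neg_one, ← div_eq_mul_inv]
      have h8 : (J : ℝ) ≤ ((N * N : ℕ) : ℝ) / q := Nat.cast_div_le
      refine h8.trans (le_of_eq ?_)
      push_cast
      ring
    calc (R.card : ℝ) * ((q : ℝ) ^ (-(1 / 2 : ℝ)) * ∑ j ∈ Icc 1 J, (j : ℝ) ^ (-(1 / 2 : ℝ))) ≤
        (Fintype.card K : ℝ) * ((q : ℝ) ^ (-(1 / 2 : ℝ)) * (2 * (N * (q : ℝ) ^ (-(1 / 2 : ℝ))))) := by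
          apply mul_le_mul h5 _ (by positivity) (Nat.cast_nonneg _)
          apply mul_le_mul_of_nonneg_left _ (by positivity)
          exact h6.trans (mul_le_mul_of_nonneg_left h7 (by norm_num))
      _ = 2 * (Fintype.card K : ℝ) * N * ((q : ℝ) ^ (-(1 / 2 : ℝ)) * (q : ℝ) ^ (-(1 / 2 : ℝ))) := by ring
      _ = _ := by
          rw [← Real.rpow_add hq]
          have e3 : (-(1 / 2 : ℝ)) + (-(1 / 2)) = -1 := by norm_num
          rw [e3, Real.rpow_neg_one]
          ring
  calc T * ∑ m ∈ M, t m ≤ T * (2 * (Fintype.card K : ℝ) * (N / q)) :=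
        mul_le_mul_of_nonneg_left (h3.trans h4) hT0
    _ = _ := by ring

/-- the long part of the sum -/
lemma long_sum (K : Subgroup (ZMod q)ˣ) (S : Finset ℕ) {D N k₀ T : ℕ} (hD : 1 ≤ D) (hNq : N < q)
    (hN1 : 1 ≤ N) (hk : q ≤ D ^ (k₀ + 1))
    (hS : ∀ n ∈ S, D < n ∧ n < q ∧ InK q K n)
    (hT : ∀ n : ℕ, 0 < n → n < q ^ 2 → n.divisors.card ≤ T) :
    ∑ n ∈ S, (n : ℝ) ^ (-(1 / 2 : ℝ)) ≤
      ∑ k ∈ Icc 2 k₀, (T * ((Fintype.card K : ℝ) ^ (1 / (k : ℝ)) *
        (q : ℝ) ^ (-(1 / (2 * ((k : ℝ) + 1)))))) +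
      (Real.sqrt (2 * T * Fintype.card K * (N / q)) +
        (Fintype.card K : ℝ) * (N : ℝ) ^ (-(1 / 2 : ℝ))) := by
  have hq1 : 1 < q := Nat.Prime.one_lt Fact.out
  have hqq : q ≤ q ^ 2 := by nlinarith
  have hN0 : (0 : ℝ) < N := by exact_mod_cast hN1
  rw [← Finset.sum_filter_add_sum_filter_not S (fun n => n ^ 2 < q)]
  apply add_le_add
  · -- the low part
    have h1 : ∀ n ∈ S.filter (fun n => n ^ 2 < q), ∃ k ∈ Icc 2 k₀, n ^ k < q ∧ q ≤ n ^ (k + 1) := by
      intro n hn
      rw [mem_filter] at hn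
      have hnS := hS n hn.1
      have hex : ∃ k, q ≤ n ^ k := ⟨k₀ + 1, hk.trans (Nat.pow_le_pow_left hnS.1.le _)⟩
      have h2 := Nat.find_spec hex
      have h3 : Nat.find hex ≤ k₀ + 1 := Nat.find_min' hex (hk.trans (Nat.pow_le_pow_left hnS.1.le _))
      have h4 : 3 ≤ Nat.find hex := by
        by_contra hcon
        push Not at hcon
        have h5 : n ^ Nat.find hex ≤ n ^ 2 := Nat.pow_le_pow_right (by omega) (by omega)
        omega
      refine ⟨Nat.find hex - 1, ?_, ?_, ?_⟩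
      · rw [mem_Icc]; omega
      · have h5 := Nat.find_min hex (show Nat.find hex - 1 < Nat.find hex by omega)
        omega
      · rw [show Nat.find hex - 1 + 1 = Nat.find hex by omega]
        exact h2
    choose! kf hkf using h1
    rw [← Finset.sum_fiberwise_of_maps_to (g := kf) (t := Icc 2 k₀) (fun n hn => (hkf n hn).1)]
    apply Finset.sum_le_sum
    intro k hkm
    rw [mem_Icc] at hkm
    apply sum_k_le K _ (show 1 ≤ k by omega)
    · intro n hn
      rw [mem_filter] at hn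
      have h2 := hkf n hn.1
      rw [hn.2] at h2
      have h3 := hS n (mem_filter.1 hn.1).1
      exact ⟨by omega, h2.2.1, h3.2.2⟩
    · intro n hn
      rw [mem_filter] at hn
      have h2 := hkf n hn.1
      rw [hn.2] at h2
      exact h2.2.2
    · intro n hn hnq
      exact hT n hn (by omega)
  · rw [← Finset.sum_filter_add_sum_filter_not (S.filter (fun n => ¬ n ^ 2 < q)) (fun n => n ≤ N)]
    apply add_le_add
    · apply sum_high_le K _ hNq
      · intro n hn
        rw [mem_filter, mem_filter] at hn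
        have h3 := hS n hn.1.1
        exact ⟨by omega, hn.2, h3.2.2⟩
      · intro n hn
        rw [mem_filter, mem_filter, not_lt] at hn
        exact hn.1.2
      · exact Nat.cast_nonneg _
      · intro n hn hnq
        exact_mod_cast hT n hn hnq
    · have h1 : ∀ n ∈ (S.filter (fun n => ¬ n ^ 2 < q)).filter (fun n => ¬ n ≤ N),
          (n : ℝ) ^ (-(1 / 2 : ℝ)) ≤ (N : ℝ) ^ (-(1 / 2 : ℝ)) := by
        intro n hn
        rw [mem_filter, not_le] at hn
        exact Real.rpow_le_rpow_of_nonpos hN0 (by exact_mod_cast hn.2.le) (by norm_num)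
      refine (Finset.sum_le_card_nsmul _ _ _ h1).trans ?_
      rw [nsmul_eq_mul]
      apply mul_le_mul_of_nonneg_right _ (by positivity)
      exact_mod_cast card_InK_le _ fun n hn => by
        rw [mem_filter, mem_filter] at hn
        exact (hS n hn.1.1).2

end Pool.Agent.V8H35.NV
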