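import Pool.Agent.V8H35.NV.N6
import Pool.Agent.R311.RES.C14
import Pool.Agent.Y766.F4

/-!
# The number of the members of a coset with a large central value, from the first two moments
-/

set_option autoImplicit false

namespace Pool.Agent.V8H35.NV

open Finset
open scoped Classical
open Pool.Agent.R311.RES (ann hzv L_half hzv_two card_mul val_pos sum_rsqrt)

variable {q : ℕ} [Fact q.Prime]

/-- a trivial bound for the central values -/
lemma norm_L_le (χ : DirichletCharacter ℂ q) :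
    ‖DirichletCharacter.LFunction χ (1 / 2)‖ ≤ 5 * Real.sqrt q := by
  have : NeZero q := ⟨(Nat.Prime.pos Fact.out).ne'⟩
  have hq1 : (1 : ℝ) ≤ q := by exact_mod_cast (Nat.Prime.one_lt Fact.out : 1 < q).le
  have hq0 : (0 : ℝ) < q := by linarith
  rw [L_half]
  have h1 : ∀ a ∈ (univ : Finset (ZMod q)ˣ), ‖χ (a : ZMod q) * hzv q a‖ ≤
      ((a : ZMod q).val : ℝ) ^ (-(1 / 2 : ℝ)) + 3 * (q : ℝ) ^ (-(1 / 2 : ℝ)) := by
    intro a _
    rw [norm_mul]
    have h2 := hzv_two a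
    have h3 : ‖hzv q a‖ ≤ ((a : ZMod q).val : ℝ) ^ (-(1 / 2 : ℝ)) + 3 * (q : ℝ) ^ (-(1 / 2 : ℝ)) := by
      have e : hzv q a = ((((a : ZMod q).val : ℝ) ^ (-(1 / 2 : ℝ)) : ℝ) : ℂ) +
        (hzv q a - ((((a : ZMod q).val : ℝ) ^ (-(1 / 2 : ℝ)) : ℝ) : ℂ)) := by ring
      rw [e]
      refine (norm_add_le _ _).trans ?_
      rw [Complex.norm_real, Real.norm_of_nonneg (by positivity)]
      linarith
    calc ‖χ (a : ZMod q)‖ * ‖hzv q a‖ ≤ 1 * ‖hzv q a‖ :=
          mul_le_mul_of_nonneg_right (DirichletCharacter.norm_le_one _ _) (norm_nonneg _)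
      _ ≤ _ := by rw [one_mul]; exact h3
  refine (norm_sum_le _ _).trans ((Finset.sum_le_sum h1).trans ?_)
  rw [Finset.sum_add_distrib, Finset.sum_const, nsmul_eq_mul, card_univ, ZMod.card_units_eq_totient]
  have h2 : (q.totient : ℝ) ≤ q := by exact_mod_cast Nat.totient_le q
  have h3 : ∑ a : (ZMod q)ˣ, ((a : ZMod q).val : ℝ) ^ (-(1 / 2 : ℝ)) ≤ 2 * Real.sqrt q := by
    refine le_trans ?_ (sum_rsqrt q)
    have h4 : ∑ a : (ZMod q)ˣ, ((a : ZMod q).val : ℝ) ^ (-(1 / 2 : ℝ)) =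
        ∑ n ∈ (univ : Finset (ZMod q)ˣ).image (fun a : (ZMod q)ˣ => (a : ZMod q).val),
          (n : ℝ) ^ (-(1 / 2 : ℝ)) := by
      rw [Finset.sum_image]
      intro a _ b _ hab
      exact Units.ext (ZMod.val_injective q hab)
    rw [h4]
    apply Finset.sum_le_sum_of_subset_of_nonneg _ (fun n _ _ => by positivity)
    intro n hn
    rw [mem_image] at hn
    obtain ⟨a, -, rfl⟩ := hn
    rw [mem_Icc]
    exact ⟨val_pos a, (ZMod.val_lt (a : ZMod q)).le⟩
  have h5 : (q : ℝ) * (q : ℝ) ^ (-(1 / 2 : ℝ)) = Real.sqrt q := by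
    rw [Real.sqrt_eq_rpow]
    nth_rewrite 1 [← Real.rpow_one (q : ℝ)]
    rw [← Real.rpow_add hq0]
    norm_num
  have h6 : (q.totient : ℝ) * (3 * (q : ℝ) ^ (-(1 / 2 : ℝ))) ≤ 3 * Real.sqrt q := by
    calc (q.totient : ℝ) * (3 * (q : ℝ) ^ (-(1 / 2 : ℝ))) ≤ q * (3 * (q : ℝ) ^ (-(1 / 2 : ℝ))) :=
          mul_le_mul_of_nonneg_right h2 (by positivity)
      _ = _ := by rw [← h5]; ring
  linarith

/-- the number of the large values -/
theorem count_large (H : Subgroup (DirichletCharacter ℂ q)) (χ₀ : DirichletCharacter ℂ q)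
    (B : Finset ℕ) (hB : ∀ p ∈ B, p.Prime) (D : ℕ) (hD : 1 ≤ D) (hDq : D < q) (τ Lg : ℝ)
    (hτ : ∀ n : ℕ, 0 < n → n < q → (n.divisors.card : ℝ) ≤ τ)
    (hLg : ∑ n ∈ (NN H).filter (fun n => D < n), (n : ℝ) ^ (-(1 / 2 : ℝ)) ≤ Lg)
    (herr : 7 * D * (Fintype.card (ann H) : ℝ) * (q : ℝ) ^ (-(1 / 2 : ℝ)) +
        ∑ n ∈ (FS q (ann H) (((range q).filter Nat.Prime) \ B) (Real.log D)).erase 1,
          (n : ℝ) ^ (-(1 / 2 : ℝ)) + τ * Lg ≤ 1 / 2)
    (v : ℝ) (hv0 : 0 ≤ v) (hv : v * Real.exp (∑ p ∈ B, (p : ℝ) ^ (-(1 / 2 : ℝ))) ≤ 1 / 4)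
    (hq5 : 80 * Real.sqrt q * Real.sqrt D ≤ Fintype.card H) {M : ℝ} (hM0 : 0 ≤ M)
    (hM : ∑ ψ ∈ (univ : Finset H).filter (fun ψ : H => χ₀ * (ψ : DirichletCharacter ℂ q) ≠ 1),
      ‖DirichletCharacter.LFunction (χ₀ * (ψ : DirichletCharacter ℂ q)) (1 / 2)‖ ^ 2 ≤
      M * Fintype.card H) :
    (Fintype.card H : ℝ) ≤ 256 * D * M *
      ((univ : Finset H).filter (fun ψ : H => v ≤
        ‖DirichletCharacter.LFunction (χ₀ * (ψ : DirichletCharacter ℂ q)) (1 / 2)‖)).card := by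
  have hq1 : (1 : ℝ) < q := by exact_mod_cast (Nat.Prime.one_lt Fact.out : 1 < q)
  have hH1 : (0 : ℝ) < Fintype.card H := by exact_mod_cast (Fintype.card_pos : 0 < Fintype.card H)
  have hH0 : (0 : ℝ) ≤ Fintype.card H := hH1.le
  set A : Finset H := (univ : Finset H).filter (fun ψ : H => v ≤
        ‖DirichletCharacter.LFunction (χ₀ * (ψ : DirichletCharacter ℂ q)) (1 / 2)‖) with hA
  set f : H → ℝ := fun ψ : H => ‖DirichletCharacter.LFunction (χ₀ * (ψ : DirichletCharacter ℂ q)) (1 / 2)‖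
    with hf
  set g : H → ℝ := fun ψ : H => ‖DirichletCharacter.LFunction (χ₀ * (ψ : DirichletCharacter ℂ q)) (1 / 2) *
        Mo B D (χ₀ * (ψ : DirichletCharacter ℂ q))‖ with hg
  have hD0 : (0 : ℝ) < D := by exact_mod_cast hD
  have hfm := first_moment H χ₀ B hB D hD hDq τ Lg hτ hLg
  set Z : ℂ := ∑ ψ : H, DirichletCharacter.LFunction (χ₀ * (ψ : DirichletCharacter ℂ q)) (1 / 2) *
        Mo B D (χ₀ * (ψ : DirichletCharacter ℂ q)) with hZ
  have h1 : (Fintype.card H : ℝ) / 2 ≤ ‖Z‖ := by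
    have h2 := hfm.trans (mul_le_mul_of_nonneg_left herr hH0)
    have h3 : ‖(Fintype.card H : ℂ)‖ ≤ ‖Z‖ + ‖Z - (Fintype.card H : ℂ)‖ := by
      have e : (Fintype.card H : ℂ) = Z - (Z - (Fintype.card H : ℂ)) := by ring
      calc ‖(Fintype.card H : ℂ)‖ = ‖Z - (Z - (Fintype.card H : ℂ))‖ := by rw [← e]
        _ ≤ _ := norm_sub_le _ _
    rw [Complex.norm_natCast] at h3
    linarith
  -- the bound for the small values
  have hsm : ∀ ψ ∈ Aᶜ, g ψ ≤ 1 / 4 := by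
    intro ψ hψ
    rw [mem_compl, hA, mem_filter] at hψ
    have h2 : ‖DirichletCharacter.LFunction (χ₀ * (ψ : DirichletCharacter ℂ q)) (1 / 2)‖ ≤ v := by
      by_contra hcon
      push Not at hcon
      exact hψ ⟨mem_univ _, hcon.le⟩
    rw [hg]
    simp only [norm_mul]
    refine le_trans ?_ hv
    exact mul_le_mul h2 (norm_Mo_le' B D _) (norm_nonneg _) hv0
  have h2 : ∑ ψ ∈ Aᶜ, g ψ ≤ (Fintype.card H : ℝ) / 4 := by
    refine (Finset.sum_le_card_nsmul _ _ _ hsm).trans ?_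
    rw [nsmul_eq_mul]
    have h3 : ((Aᶜ).card : ℝ) ≤ Fintype.card H := by
      exact_mod_cast Finset.card_le_univ _
    linarith
  have hgf : ∀ ψ : H, g ψ ≤ 2 * Real.sqrt D * f ψ := by
    intro ψ
    rw [hg, hf]
    simp only
    rw [norm_mul, mul_comm]
    exact mul_le_mul_of_nonneg_right ((norm_Mo_le B D _).trans (sum_DD_le B D)) (norm_nonneg _)
  -- the principal character
  have h3 : ∑ ψ ∈ A.filter (fun ψ : H => ¬ χ₀ * (ψ : DirichletCharacter ℂ q) ≠ 1), g ψ ≤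
      (Fintype.card H : ℝ) / 8 := by
    have hc : (A.filter (fun ψ : H => ¬ χ₀ * (ψ : DirichletCharacter ℂ q) ≠ 1)).card ≤ 1 := by
      rw [Finset.card_le_one]
      intro a ha b hb
      rw [mem_filter, not_ne_iff] at ha hb
      apply Subtype.ext
      exact mul_left_cancel (ha.2.trans hb.2.symm)
    have h4 : ∀ ψ ∈ A.filter (fun ψ : H => ¬ χ₀ * (ψ : DirichletCharacter ℂ q) ≠ 1),
        g ψ ≤ (Fintype.card H : ℝ) / 8 := by
      intro ψ _
      refine (hgf ψ).trans ?_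
      have h5 : f ψ ≤ 5 * Real.sqrt q := norm_L_le _
      have h6 := mul_le_mul_of_nonneg_left h5 (show 0 ≤ 2 * Real.sqrt D by positivity)
      linarith
    refine (Finset.sum_le_card_nsmul _ _ _ h4).trans ?_
    rw [nsmul_eq_mul]
    have h5 : ((A.filter (fun ψ : H => ¬ χ₀ * (ψ : DirichletCharacter ℂ q) ≠ 1)).card : ℝ) ≤ 1 := by
      exact_mod_cast hc
    exact mul_le_of_le_one_left (by positivity) h5
  -- the other characters
  have h4 : ∑ ψ ∈ A.filter (fun ψ : H => χ₀ * (ψ : DirichletCharacter ℂ q) ≠ 1), g ψ ≤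
      2 * Real.sqrt D * Real.sqrt (A.card * (M * Fintype.card H)) := by
    refine (Finset.sum_le_sum (fun ψ _ => hgf ψ)).trans ?_
    rw [← Finset.mul_sum]
    apply mul_le_mul_of_nonneg_left _ (by positivity)
    apply Real.le_sqrt_of_sq_le
    refine (sq_sum_le_card_mul_sum_sq
      (s := A.filter (fun ψ : H => χ₀ * (ψ : DirichletCharacter ℂ q) ≠ 1)) (f := f)).trans ?_
    apply mul_le_mul _ _ (Finset.sum_nonneg fun _ _ => sq_nonneg _) (Nat.cast_nonneg _)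
    · exact_mod_cast card_le_card (filter_subset _ _)
    · refine le_trans ?_ hM
      apply Finset.sum_le_sum_of_subset_of_nonneg _ (fun _ _ _ => sq_nonneg _)
      exact Finset.filter_subset_filter _ (subset_univ _)
  have h5 : ‖Z‖ ≤ (Fintype.card H : ℝ) / 4 + ((Fintype.card H : ℝ) / 8 +
      2 * Real.sqrt D * Real.sqrt (A.card * (M * Fintype.card H))) := by
    refine (norm_sum_le _ _).trans ?_
    rw [← Finset.sum_compl_add_sum A,
      ← Finset.sum_filter_not_add_sum_filter A (fun ψ : H => χ₀ * (ψ : DirichletCharacter ℂ q) ≠ 1)]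
    exact add_le_add h2 (add_le_add h3 h4)
  have h6 : (Fintype.card H : ℝ) ≤ 16 * Real.sqrt D * Real.sqrt (A.card * (M * Fintype.card H)) := by
    linarith
  have h7 : (Fintype.card H : ℝ) ^ 2 ≤ (16 * Real.sqrt D * Real.sqrt (A.card * (M * Fintype.card H))) ^ 2 :=
    pow_le_pow_left₀ hH0 h6 2
  rw [mul_pow, mul_pow, Real.sq_sqrt hD0.le,
    Real.sq_sqrt (mul_nonneg (Nat.cast_nonneg _) (mul_nonneg hM0 hH0))] at h7
  have h8 : (Fintype.card H : ℝ) * Fintype.card H ≤ Fintype.card H * (256 * D * M * A.card) := by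
    calc (Fintype.card H : ℝ) * Fintype.card H = (Fintype.card H : ℝ) ^ 2 := by ring
      _ ≤ _ := h7
      _ = _ := by ring
  exact le_of_mul_le_mul_left h8 hH1

/-- the mean square, from the starting theorem on coset progressions -/
theorem mean_sq {ε : ℝ} (hε : 0 < ε) : ∃ C : ℝ, 0 < C ∧ ∀ (q : ℕ) [Fact q.Prime]
    (H : Subgroup (DirichletCharacter ℂ q)) (χ₀ : DirichletCharacter ℂ q),
    (q : ℝ) ^ (2 / 3 : ℝ) ≤ Fintype.card H →
    ∑ ψ ∈ (univ : Finset H).filter (fun ψ : H => χ₀ * (ψ : DirichletCharacter ℂ q) ≠ 1),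
      ‖DirichletCharacter.LFunction (χ₀ * (ψ : DirichletCharacter ℂ q)) (1 / 2)‖ ^ 2 ≤
      C * (q : ℝ) ^ ε * Fintype.card H := by
  obtain ⟨C, A, hC, h⟩ := Pool.Agent.Y766.coset_final 0 hε
  refine ⟨C, hC, ?_⟩
  intro q _ H χ₀ hH
  have hqp : q.Prime := Fact.out
  have : NeZero q := ⟨hqp.pos.ne'⟩
  have hq1 : (1 : ℝ) ≤ q := by exact_mod_cast hqp.one_lt.le
  set F : Finset (DirichletCharacter ℂ q) := univ.filter (fun η => η ∈ H) with hF
  have hFm : ∀ η, η ∈ F ↔ η ∈ H := fun η => by simp [hF]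
  have hcard : Nat.card H = F.card := Nat.subtype_card F hFm
  have hcard2 : (F.card : ℝ) = Fintype.card H := by
    rw [← hcard, Nat.card_eq_fintype_card]
  have m2 := h q q hqp.one_lt (dvd_refl q) F ⟨H, Fin.elim0, Fin.elim0, by
    intro θ
    rw [hFm]
    constructor
    · intro h
      exact ⟨θ, h, Fin.elim0, fun i => i.elim0, by simp⟩
    · rintro ⟨η, hη, j, -, rfl⟩
      simpa using hη, by rw [hcard]; simp⟩ (by rw [hcard2]; exact hH)
    (by
      rw [hcard2]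
      exact (Real.rpow_le_rpow_of_exponent_le hq1 (by norm_num)).trans hH) χ₀ 0
  simp only [abs_zero, add_zero, one_pow, mul_one, Complex.ofReal_zero, zero_mul,
    DirichletCharacter.changeLevel_self] at m2
  rw [hcard2] at m2
  refine le_trans (le_of_eq ?_) (le_trans (Finset.sum_le_sum_of_subset_of_nonneg
    (s := F.filter (fun θ => χ₀ * θ ≠ 1)) ?_ (fun _ _ _ => sq_nonneg _)) m2)
  · symm
    refine Finset.sum_bij' (fun θ hθ => (⟨θ, (hFm θ).1 (mem_filter.1 hθ).1⟩ : H))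
      (fun ψ _ => (ψ : DirichletCharacter ℂ q)) ?_ ?_ ?_ ?_ ?_
    · intro a ha
      rw [mem_filter] at ha ⊢
      exact ⟨mem_univ _, ha.2⟩
    · intro a ha
      rw [mem_filter] at ha ⊢
      exact ⟨(hFm _).2 a.2, ha.2⟩
    · intro a ha
      rfl
    · intro a ha
      rfl
    · intro a ha
      rfl
  · intro θ hθ
    rw [mem_filter] at hθ ⊢
    refine ⟨hθ.1, ?_⟩
    have h1 : (χ₀ * θ).conductor ∣ q := DirichletCharacter.conductor_dvd_level _
    rcases (Nat.dvd_prime hqp).1 h1 with h2 | h2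
    · exact absurd ((DirichletCharacter.eq_one_iff_conductor_eq_one (χ := χ₀ * θ)).2 h2) hθ.2
    · exact h2

end Pool.Agent.V8H35.NV
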