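import Pool.Agent.V8H35.NV.N7

/-!
# The short part of the sum: the choice of the set of the removed primes
-/

set_option autoImplicit false

namespace Pool.Agent.V8H35.NV

open Finset
open scoped Classical
open Pool.Agent.R311.RES (sum_rsqrt)

variable {q : ℕ} [Fact q.Prime]

/-- the facts on `x = log q` used for the choice of the removed primes -/
structure F1 (η δ c a γ : ℝ) (m : ℕ) (x : ℝ) : Prop where
  hx : 1 ≤ x
  hl : 1 ≤ Real.log x
  h1 : η * x + 1 ≤ δ * ((1 - δ) * x)
  h2 : 2 / (1 - Real.exp (-(1 / 2 - γ))) *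
    Real.exp (-((1 / 2 - γ) * ((1 + c) * Real.log x))) ≤ 1 / 8
  h3 : 2 ≤ x ^ c
  h4 : x ^ (1 - ((m : ℝ) - 1) * c) + 1 ≤ x ^ (a * (1 + c))

/-- the constant in the cost -/
noncomputable def M8 (δ : ℝ) : ℝ := 2 + 2 * ((1 / Real.log (1 + δ) + 2) / δ)

theorem short_one (K : Subgroup (ZMod q)ˣ) {κ η δ c a γ x : ℝ} {m : ℕ} (F : F1 η δ c a γ m x)
    (hκ : 0 < κ) (hδ0 : 0 < δ) (hδ1 : δ < 1) (hc : 0 < c) (ha : 0 ≤ a) (hm : 2 ≤ m)
    (hγ : γ < 1 / 2) (hγ2 : m * (κ * (1 + δ) / (1 - δ) ^ 2) + a ≤ γ)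
    (hx : x = Real.log q) (hK : Real.log (Fintype.card K) ≤ κ * x)
    {D : ℕ} (hD : Real.log D ≤ η * x) :
    ∃ B : Finset ℕ, (∀ p ∈ B, p.Prime) ∧
      ∑ n ∈ (FS q K (((range q).filter Nat.Prime) \ B) (Real.log D)).erase 1,
          (n : ℝ) ^ (-(1 / 2 : ℝ)) ≤ 1 / 8 ∧
      ∑ p ∈ B, (p : ℝ) ^ (-(1 / 2 : ℝ)) ≤ M8 δ * x ^ ((1 + c) / 2) := by
  obtain ⟨hx1, hl, h1, h2, h3, h4⟩ := F
  have hx0 : 0 < x := by linarith
  have hδ2 : 0 < 1 - δ := by linarith
  set R : ℝ := (1 - δ) * x with hR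
  have hR0 : 0 < R := by positivity
  have hRx : R < x := by rw [hR]; nlinarith
  have hRq : R < Real.log q := by rw [← hx]; exact hRx
  set h : ℝ := (1 + c) * Real.log x with hh
  have hh0 : 0 < h := by positivity
  have hhl : Real.log x ≤ h := by
    rw [hh]
    nlinarith
  have hh1 : 1 ≤ h := hl.trans hhl
  have hE : 0 < κ * x := by positivity
  set J : ℕ := ⌈x ^ c⌉₊ with hJ
  have hJl : x ^ c ≤ J := Nat.le_ceil _
  have hJu : (J : ℝ) < x ^ c + 1 := Nat.ceil_lt_add_one (by positivity)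
  have hJ2 : 2 ≤ J := by
    have : (2 : ℝ) ≤ J := h3.trans hJl
    exact_mod_cast this
  have hJ0 : (0 : ℝ) < J := by
    have : 0 < J := by omega
    exact_mod_cast this
  have hlμ : 0 < Real.log (1 + δ) := Real.log_pos (by linarith)
  set Λ : ℕ := ⌊Real.log x / Real.log (1 + δ)⌋₊ + 1 with hΛ
  have hΛl : x < (1 + δ) ^ Λ := by
    rw [← Real.log_lt_log_iff hx0 (by positivity), Real.log_pow]
    have h5 := Nat.lt_floor_add_one (Real.log x / Real.log (1 + δ))
    rw [div_lt_iff₀ hlμ] at h5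
    rw [hΛ]
    push_cast
    linarith
  have hΛu : (Λ : ℝ) ≤ Real.log x / Real.log (1 + δ) + 1 := by
    rw [hΛ]
    push_cast
    have := Nat.floor_le (show 0 ≤ Real.log x / Real.log (1 + δ) by positivity)
    linarith
  set V₀ : Finset ℕ := ((range q).filter Nat.Prime).filter (fun p => h < Real.log p) with hV₀
  obtain ⟨B', hB'V, hB'c, hprop⟩ := exists_B_all K V₀ (R := R) (E := κ * x) (h := h) (δ := δ)
    (J := (J : ℝ)) Λ hδ0 hδ1 hh0 hR0 hRq hE hJ0.le hK (by
      have h5 : δ * R ≤ x := by nlinarith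
      have h6 : (1 + δ) ^ Λ ≤ h * (1 + δ) ^ Λ := le_mul_of_one_le_left (by positivity) hh1
      linarith)
  set B₀ : Finset ℕ := ((range q).filter Nat.Prime).filter (fun p => ¬ h < Real.log p) with hB₀
  have hB'p : ∀ p ∈ B', p.Prime := by
    intro p hp
    have := hB'V hp
    rw [hV₀, mem_filter, mem_filter] at this
    exact this.1.2
  refine ⟨B₀ ∪ B', ?_, ?_, ?_⟩
  · intro p hp
    rw [mem_union] at hp
    rcases hp with hp | hp
    · rw [hB₀, mem_filter, mem_filter] at hp
      exact hp.1.2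
    · exact hB'p p hp
  · set V : Finset ℕ := ((range q).filter Nat.Prime) \ (B₀ ∪ B') with hV
    have hVs : V ⊆ V₀ \ B' := by
      intro p hp
      rw [hV, mem_sdiff, mem_union] at hp
      rw [mem_sdiff, hV₀, mem_filter]
      refine ⟨⟨hp.1, ?_⟩, fun h5 => hp.2 (Or.inr h5)⟩
      by_contra h5
      exact hp.2 (Or.inl (by rw [hB₀, mem_filter]; exact ⟨hp.1, h5⟩))
    have hVp : ∀ p ∈ V, h ≤ Real.log p := by
      intro p hp
      have h5 := (mem_sdiff.1 (hVs hp)).1
      rw [hV₀, mem_filter] at h5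
      exact h5.2.le
    have e1 : (1 + δ) * (κ * x / ((1 - δ) * R)) = κ * (1 + δ) / (1 - δ) ^ 2 := by
      rw [hR]
      field_simp
    refine (sum_short K V hγ hh0 hVp (R := Real.log D) ?_).trans h2
    intro r hr1 hr2
    have hr0 : 0 < r := by linarith
    have h5 := count_all K V (R := R) (E := κ * x) (h := h) (δ := δ)
      (θ := (1 + δ) * (κ * x / ((1 - δ) * R))) (a := a) (J := J) (m := m)
      hδ0 hδ1 hh0 hVp hR0 hRq hE hJ2 hK (by
        have : 0 ≤ κ * x / ((1 - δ) * R) := by positivity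
        nlinarith) hm
      (fun U hU r hr1 hr2 hc => hprop U (hU.trans hVs) r hr1 hr2 hc) (by
        have e2 : Real.exp (a * h) = x ^ (a * (1 + c)) := by
          rw [Real.rpow_def_of_pos hx0, hh]; congr 1; ring
        rw [e2]
        refine le_trans ?_ h4
        have h6 : R / (J : ℝ) ^ (m - 1) ≤ x ^ (1 - ((m : ℝ) - 1) * c) := by
          have h7 : (x ^ c) ^ (m - 1) ≤ (J : ℝ) ^ (m - 1) := pow_le_pow_left₀ (by positivity) hJl _
          have e3 : x ^ (1 - ((m : ℝ) - 1) * c) = x / (x ^ c) ^ (m - 1) := by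
            rw [Real.rpow_sub hx0, Real.rpow_one]
            congr 1
            rw [← Real.rpow_natCast, ← Real.rpow_mul hx0.le]
            congr 1
            rw [Nat.cast_sub (by omega : 1 ≤ m)]
            push_cast
            ring
          rw [e3]
          exact div_le_div₀ hx0.le hRx.le (by positivity) h7
        linarith) hh1 ha hr1 (show r ≤ δ * R by linarith)
    refine h5.trans ?_
    rw [e1]
    exact mul_le_mul_of_nonneg_right hγ2 hr0.le
  · -- the sum over `B`
    have hz : x ^ ((1 + c) / 2) = Real.exp (h / 2) := by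
      rw [Real.rpow_def_of_pos hx0, hh]
      congr 1
      ring
    have hsq : Real.sqrt (Real.exp h) = Real.exp (h / 2) := by
      rw [Real.sqrt_eq_rpow, ← Real.exp_mul]
      congr 1
      ring
    have hsum0 : ∑ p ∈ B₀, (p : ℝ) ^ (-(1 / 2 : ℝ)) ≤ 2 * Real.exp (h / 2) := by
      have h5 := sum_rsqrt ⌊Real.exp h⌋₊
      have h6 : Real.sqrt (⌊Real.exp h⌋₊ : ℝ) ≤ Real.exp (h / 2) := by
        rw [← hsq]
        exact Real.sqrt_le_sqrt (Nat.floor_le (Real.exp_pos _).le)
      refine le_trans ?_ (h5.trans (mul_le_mul_of_nonneg_left h6 (by norm_num)))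
      apply Finset.sum_le_sum_of_subset_of_nonneg _ (fun n _ _ => by positivity)
      intro p hp
      rw [hB₀, mem_filter, mem_filter, not_lt] at hp
      rw [mem_Icc]
      refine ⟨hp.1.2.one_lt.le, ?_⟩
      apply Nat.le_floor
      rw [← Real.log_le_iff_le_exp (by exact_mod_cast hp.1.2.pos)]
      exact hp.2
    have hsum1 : ∑ p ∈ B', (p : ℝ) ^ (-(1 / 2 : ℝ)) ≤
        2 * ((1 / Real.log (1 + δ) + 2) / δ) * Real.exp (h / 2) := by
      have h5 : ∀ p ∈ B', (p : ℝ) ^ (-(1 / 2 : ℝ)) ≤ Real.exp (-(h / 2)) := by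
        intro p hp
        have h6 := hB'V hp
        rw [hV₀, mem_filter] at h6
        have h7 : (0 : ℝ) < p := by exact_mod_cast (hB'p p hp).pos
        rw [Real.rpow_def_of_pos h7, Real.exp_le_exp]
        linarith [h6.2]
      refine (Finset.sum_le_card_nsmul _ _ _ h5).trans ?_
      rw [nsmul_eq_mul]
      have h6 : (B'.card : ℝ) ≤ 2 * ((1 / Real.log (1 + δ) + 2) / δ) * Real.exp h := by
        refine hB'c.trans ?_
        have e4 : Real.exp h = x ^ c * x := by
          rw [Real.rpow_def_of_pos hx0, hh]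
          nth_rewrite 3 [← Real.exp_log hx0]
          rw [← Real.exp_add]
          congr 1
          ring
        rw [e4]
        have h7 : (Λ : ℝ) / h ≤ 1 / Real.log (1 + δ) + 2 := by
          rw [div_le_iff₀ hh0]
          have h8 : (1 / Real.log (1 + δ) + 2) * Real.log x ≤ (1 / Real.log (1 + δ) + 2) * h :=
            mul_le_mul_of_nonneg_left hhl (by positivity)
          have e5 : (1 / Real.log (1 + δ) + 2) * Real.log x =
            Real.log x / Real.log (1 + δ) + 2 * Real.log x := by ring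
          rw [e5] at h8
          linarith
        have h8 : (J : ℝ) ≤ 2 * x ^ c := by linarith
        calc (Λ : ℝ) * (J * R / (δ * h)) = ((Λ : ℝ) / h) / δ * (J * R) := by field_simp
          _ ≤ (1 / Real.log (1 + δ) + 2) / δ * ((2 * x ^ c) * x) := by
              apply mul_le_mul _ _ (by positivity) (by positivity)
              · exact div_le_div_of_nonneg_right h7 hδ0.le
              · exact mul_le_mul h8 hRx.le hR0.le (by positivity)
          _ = _ := by ring
      calc (B'.card : ℝ) * Real.exp (-(h / 2)) ≤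
            2 * ((1 / Real.log (1 + δ) + 2) / δ) * Real.exp h * Real.exp (-(h / 2)) :=
            mul_le_mul_of_nonneg_right h6 (Real.exp_pos _).le
        _ = 2 * ((1 / Real.log (1 + δ) + 2) / δ) * (Real.exp h * Real.exp (-(h / 2))) := by ring
        _ = _ := by rw [← Real.exp_add]; congr 2; ring
    have hdisj : Disjoint B₀ B' := by
      rw [Finset.disjoint_left]
      intro p hp hp'
      have h5 := hB'V hp'
      rw [hV₀, mem_filter] at h5
      rw [hB₀, mem_filter] at hp
      exact hp.2 h5.2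
    rw [Finset.sum_union hdisj, hz, M8]
    linarith

end Pool.Agent.V8H35.NV
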