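import Pool.Agent.V8H35.NV.N8
import Pool.Agent.H510R2.Div

/-!
# The assembly
-/

set_option autoImplicit false

namespace Pool.Agent.V8H35.NV

open Finset
open scoped Classical
open Pool.Agent.R311.RES (ann card_mul)

variable {q : ℕ} [Fact q.Prime]

lemma half_le_floor {y : ℝ} (hy : 2 ≤ y) : y / 2 ≤ (⌊y⌋₊ : ℝ) := by
  have := Nat.lt_floor_add_one y
  linarith

/-- the bound for the long part -/
lemma lg_le (K : Subgroup (ZMod q)ˣ) {κ δ C x : ℝ} {k₀ : ℕ} (hx : x = Real.log q) (hx1 : 1 ≤ x)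
    (hκ : 0 < κ) (hκ1 : κ < 1 / 3) (hk₀ : 2 ≤ k₀) (hδ : δ = (1 / 3 - κ) / k₀) (hC : 0 < C)
    (hK : (Fintype.card K : ℝ) ≤ Real.exp (κ * x)) (h2 : 2 ≤ Real.exp ((1 + κ) / 2 * x)) :
    C * Real.exp (δ * x / 4) *
      (∑ k ∈ Icc 2 k₀, ((⌊C * Real.exp (δ * x / 4)⌋₊ : ℕ) * ((Fintype.card K : ℝ) ^ (1 / (k : ℝ)) *
        (q : ℝ) ^ (-(1 / (2 * ((k : ℝ) + 1)))))) +
      (Real.sqrt (2 * (⌊C * Real.exp (δ * x / 4)⌋₊ : ℕ) * Fintype.card K *
        ((⌊Real.exp ((1 + κ) / 2 * x)⌋₊ : ℕ) / q)) +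
        (Fintype.card K : ℝ) * ((⌊Real.exp ((1 + κ) / 2 * x)⌋₊ : ℕ) : ℝ) ^ (-(1 / 2 : ℝ)))) ≤
      (C ^ 2 * k₀ + C * Real.sqrt (2 * C) + C * Real.sqrt 2) * Real.exp (-(δ * x / 2)) := by
  have hq0 : (0 : ℝ) < q := by exact_mod_cast (Nat.Prime.pos Fact.out : 0 < q)
  have hqx : (q : ℝ) = Real.exp x := by rw [hx, Real.exp_log hq0]
  have hx0 : 0 < x := by linarith
  have hk0 : (2 : ℝ) ≤ k₀ := by exact_mod_cast hk₀
  have hd : 0 < 1 / 3 - κ := by linarith
  have hδ0 : 0 < δ := by rw [hδ]; positivity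
  set y : ℝ := δ * x / 4 with hy
  have hy0 : 0 < y := by positivity
  have hδk : δ * k₀ = 1 / 3 - κ := by rw [hδ]; field_simp
  have hT0 : (0 : ℝ) ≤ (⌊C * Real.exp y⌋₊ : ℕ) := Nat.cast_nonneg _
  have hT : ((⌊C * Real.exp y⌋₊ : ℕ) : ℝ) ≤ C * Real.exp y :=
    Nat.floor_le (by positivity)
  have hN : ((⌊Real.exp ((1 + κ) / 2 * x)⌋₊ : ℕ) : ℝ) ≤ Real.exp ((1 + κ) / 2 * x) :=
    Nat.floor_le (Real.exp_pos _).le
  have hN2 : Real.exp ((1 + κ) / 2 * x) / 2 ≤ ((⌊Real.exp ((1 + κ) / 2 * x)⌋₊ : ℕ) : ℝ) :=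
    half_le_floor h2
  set T : ℝ := ((⌊C * Real.exp y⌋₊ : ℕ) : ℝ) with hTd
  set N : ℝ := ((⌊Real.exp ((1 + κ) / 2 * x)⌋₊ : ℕ) : ℝ) with hNd
  set c : ℝ := (Fintype.card K : ℝ) with hc
  have hc0 : 0 ≤ c := Nat.cast_nonneg _
  have hN0 : 0 < N := lt_of_lt_of_le (by positivity) hN2
  have hd2 : 2 * δ ≤ 1 / 3 - κ := by
    rw [← hδk]
    nlinarith
  have hd3 : 8 * y ≤ (1 / 3 - κ) * x := by
    rw [hy]
    nlinarith
  -- the first part
  have h1 : ∑ k ∈ Icc 2 k₀, (T * (c ^ (1 / (k : ℝ)) * (q : ℝ) ^ (-(1 / (2 * ((k : ℝ) + 1)))))) ≤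
      k₀ * (C * Real.exp y * Real.exp (-(4 * y))) := by
    have h3 : ∀ k ∈ Icc 2 k₀, T * (c ^ (1 / (k : ℝ)) * (q : ℝ) ^ (-(1 / (2 * ((k : ℝ) + 1))))) ≤
        C * Real.exp y * Real.exp (-(4 * y)) := by
      intro k hk
      rw [mem_Icc] at hk
      have hk2 : (2 : ℝ) ≤ k := by exact_mod_cast hk.1
      have hkk : (k : ℝ) ≤ k₀ := by exact_mod_cast hk.2
      have hk0' : (0 : ℝ) < k := by linarith
      apply mul_le_mul hT _ (by positivity) (by positivity)
      have h4 : c ^ (1 / (k : ℝ)) ≤ Real.exp (κ * x * (1 / (k : ℝ))) := by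
        rw [Real.exp_mul]
        exact Real.rpow_le_rpow hc0 hK (by positivity)
      have h5 : (q : ℝ) ^ (-(1 / (2 * ((k : ℝ) + 1)))) = Real.exp (x * (-(1 / (2 * ((k : ℝ) + 1))))) := by
        rw [hqx, ← Real.exp_mul]
      rw [h5]
      refine (mul_le_mul_of_nonneg_right h4 (Real.exp_pos _).le).trans ?_
      rw [← Real.exp_add, Real.exp_le_exp]
      have e1 : κ * x * (1 / (k : ℝ)) + x * (-(1 / (2 * ((k : ℝ) + 1)))) =
          x * (κ / k - 1 / (2 * ((k : ℝ) + 1))) := by ring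
      have e2 : -(4 * y) = x * (-δ) := by rw [hy]; ring
      rw [e1, e2]
      apply mul_le_mul_of_nonneg_left _ hx0.le
      have h6 : δ ≤ (1 / 3 - κ) / k := by
        rw [le_div_iff₀ hk0', ← hδk]
        exact mul_le_mul_of_nonneg_left hkk hδ0.le
      have h7 : 1 / (3 * (k : ℝ)) ≤ 1 / (2 * ((k : ℝ) + 1)) := by
        apply one_div_le_one_div_of_le (by positivity)
        linarith
      have e3 : (1 / 3 - κ) / (k : ℝ) = 1 / (3 * (k : ℝ)) - κ / k := by
        field_simp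
      rw [e3] at h6
      linarith
    refine (Finset.sum_le_card_nsmul _ _ _ h3).trans ?_
    rw [nsmul_eq_mul, Nat.card_Icc]
    apply mul_le_mul_of_nonneg_right _ (by positivity)
    have : k₀ + 1 - 2 ≤ k₀ := by omega
    exact_mod_cast this
  -- the second part
  have h3 : Real.sqrt (2 * T * c * (N / q)) ≤ Real.sqrt (2 * C) * Real.exp (-(3 * y)) := by
    have h4 : 2 * T * c * (N / q) ≤ (2 * C) * (Real.exp (-(3 * y))) ^ 2 := by
      have h5 : N / q ≤ Real.exp ((1 + κ) / 2 * x - x) := by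
        rw [Real.exp_sub, hqx]
        exact div_le_div_of_nonneg_right hN (Real.exp_pos _).le
      calc 2 * T * c * (N / q) ≤ 2 * (C * Real.exp y) * Real.exp (κ * x) *
            Real.exp ((1 + κ) / 2 * x - x) := by
            apply mul_le_mul _ h5 (by positivity) (by positivity)
            apply mul_le_mul _ hK hc0 (by positivity)
            linarith
        _ = (2 * C) * Real.exp (y + κ * x + ((1 + κ) / 2 * x - x)) := by
            rw [Real.exp_add, Real.exp_add]; ring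
        _ ≤ _ := by
            apply mul_le_mul_of_nonneg_left _ (by positivity)
            rw [← Real.exp_nat_mul, Real.exp_le_exp]
            push_cast
            have e1 : y + κ * x + ((1 + κ) / 2 * x - x) = y - 3 / 2 * ((1 / 3 - κ) * x) := by ring
            rw [e1]
            linarith
    calc Real.sqrt (2 * T * c * (N / q)) ≤ Real.sqrt ((2 * C) * (Real.exp (-(3 * y))) ^ 2) :=
          Real.sqrt_le_sqrt h4
      _ = _ := by
          rw [Real.sqrt_mul (by positivity), Real.sqrt_sq (Real.exp_pos _).le]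
  -- the third part
  have h4 : c * N ^ (-(1 / 2 : ℝ)) ≤ Real.sqrt 2 * Real.exp (-(3 * y)) := by
    have h5 : N ^ (-(1 / 2 : ℝ)) ≤ (Real.exp ((1 + κ) / 2 * x) / 2) ^ (-(1 / 2 : ℝ)) :=
      Real.rpow_le_rpow_of_nonpos (by positivity) hN2 (by norm_num)
    have h6 : (Real.exp ((1 + κ) / 2 * x) / 2) ^ (-(1 / 2 : ℝ)) =
        Real.sqrt 2 * Real.exp (-((1 + κ) / 4 * x)) := by
      rw [Real.div_rpow (Real.exp_pos _).le (by norm_num), ← Real.exp_mul, Real.rpow_neg (by norm_num),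
        div_inv_eq_mul, ← Real.sqrt_eq_rpow, mul_comm]
      congr 2
      ring
    calc c * N ^ (-(1 / 2 : ℝ)) ≤ Real.exp (κ * x) * (Real.sqrt 2 * Real.exp (-((1 + κ) / 4 * x))) := by
          rw [← h6]
          exact mul_le_mul hK h5 (by positivity) (Real.exp_pos _).le
      _ = Real.sqrt 2 * Real.exp (κ * x + -((1 + κ) / 4 * x)) := by rw [Real.exp_add]; ring
      _ ≤ _ := by
          apply mul_le_mul_of_nonneg_left _ (Real.sqrt_nonneg _)
          rw [Real.exp_le_exp]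
          have e1 : κ * x + -((1 + κ) / 4 * x) = -(3 / 4 * ((1 / 3 - κ) * x)) := by ring
          rw [e1]
          linarith
  have hS0 : 0 ≤ Real.sqrt (2 * C) := Real.sqrt_nonneg _
  have hS2 : 0 ≤ Real.sqrt 2 := Real.sqrt_nonneg _
  have he : Real.exp (-(δ * x / 2)) = Real.exp y * Real.exp (-(3 * y)) := by
    rw [← Real.exp_add]; congr 1; rw [hy]; ring
  have he2 : Real.exp (-(4 * y)) = Real.exp (-(3 * y)) * Real.exp (-y) := by
    rw [← Real.exp_add]; congr 1; ring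
  have he3 : Real.exp y * Real.exp (-y) = 1 := by rw [← Real.exp_add, add_neg_cancel, Real.exp_zero]
  calc C * Real.exp y * (∑ k ∈ Icc 2 k₀, (T * (c ^ (1 / (k : ℝ)) *
        (q : ℝ) ^ (-(1 / (2 * ((k : ℝ) + 1)))))) + (Real.sqrt (2 * T * c * (N / q)) +
        c * N ^ (-(1 / 2 : ℝ)))) ≤
      C * Real.exp y * (k₀ * (C * Real.exp y * Real.exp (-(4 * y))) +
        (Real.sqrt (2 * C) * Real.exp (-(3 * y)) + Real.sqrt 2 * Real.exp (-(3 * y)))) := by
        apply mul_le_mul_of_nonneg_left _ (by positivity)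
        linarith
    _ = (C ^ 2 * k₀ + C * Real.sqrt (2 * C) + C * Real.sqrt 2) * (Real.exp y * Real.exp (-(3 * y))) := by
        rw [he2]
        have : C * Real.exp y * (k₀ * (C * Real.exp y * (Real.exp (-(3 * y)) * Real.exp (-y))) +
          (Real.sqrt (2 * C) * Real.exp (-(3 * y)) + Real.sqrt 2 * Real.exp (-(3 * y)))) =
          (C ^ 2 * k₀ * (Real.exp y * Real.exp (-y)) + C * Real.sqrt (2 * C) + C * Real.sqrt 2) *
            (Real.exp y * Real.exp (-(3 * y))) := by ring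
        rw [this, he3, mul_one]
    _ = _ := by rw [he]

/-- the facts on `x = log q` -/
structure FA (κ ε η δ C C1 : ℝ) (k₀ : ℕ) (x : ℝ) : Prop where
  hx : 1 ≤ x
  a1 : 7 * Real.exp ((η + κ - 1 / 2) * x) ≤ 1 / 8
  a2 : (C ^ 2 * k₀ + C * Real.sqrt (2 * C) + C * Real.sqrt 2) * Real.exp (-(δ * x / 2)) ≤ 1 / 4
  a3 : 2 ≤ Real.exp (η * x / 2)
  a4 : 2 ≤ Real.exp ((1 + κ) / 2 * x)
  a5 : 256 * C1 ≤ Real.exp (ε * x / 4)
  a6 : 160 ≤ Real.exp ((1 / 2 - κ - η) * x)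
  a7 : 2 ≤ Real.exp ((1 / 3 - κ) * x)

theorem main_count (H : Subgroup (DirichletCharacter ℂ q)) (χ₀ : DirichletCharacter ℂ q)
    {κ ε η δ C C1 x : ℝ} {k₀ : ℕ} (F : FA κ ε η δ C C1 k₀ x) (hx : x = Real.log q)
    (hκ : 0 < κ) (hκ1 : κ < 1 / 3) (hη : 0 < η) (hη1 : η ≤ 1 / 50) (hηε : η ≤ ε / 4)
    (hk₀ : 2 ≤ k₀) (hk₀η : 2 / η ≤ k₀) (hδ : δ = (1 / 3 - κ) / k₀) (hC : 0 < C) (hC1 : 0 < C1)
    (hdiv : ∀ n : ℕ, 1 ≤ n → (n.divisors.card : ℝ) ≤ C * (n : ℝ) ^ (δ / 8))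
    (hH : (Fintype.card (ann H) : ℝ) ≤ Real.exp (κ * x))
    (hms : (q : ℝ) ^ (2 / 3 : ℝ) ≤ Fintype.card H →
      ∑ ψ ∈ (univ : Finset H).filter (fun ψ : H => χ₀ * (ψ : DirichletCharacter ℂ q) ≠ 1),
      ‖DirichletCharacter.LFunction (χ₀ * (ψ : DirichletCharacter ℂ q)) (1 / 2)‖ ^ 2 ≤
      C1 * (q : ℝ) ^ (ε / 4) * Fintype.card H)
    (B : Finset ℕ) (hB : ∀ p ∈ B, p.Prime)
    (hshort : ∑ n ∈ (FS q (ann H) (((range q).filter Nat.Prime) \ B)
      (Real.log (⌊Real.exp (η * x)⌋₊ : ℕ))).erase 1, (n : ℝ) ^ (-(1 / 2 : ℝ)) ≤ 1 / 8)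
    (v : ℝ) (hv0 : 0 ≤ v) (hv : v * Real.exp (∑ p ∈ B, (p : ℝ) ^ (-(1 / 2 : ℝ))) ≤ 1 / 4) :
    Real.exp (-(ε * x)) * Fintype.card H ≤ (((univ : Finset H).filter (fun ψ : H => v ≤
        ‖DirichletCharacter.LFunction (χ₀ * (ψ : DirichletCharacter ℂ q)) (1 / 2)‖)).card : ℝ) := by
  obtain ⟨hx1, a1, a2, a3, a4, a5, a6, a7⟩ := F
  have hqn1 : 1 < q := Nat.Prime.one_lt Fact.out
  have hq2 : 2 ≤ q := Nat.Prime.two_le Fact.out
  have hq0 : (0 : ℝ) < q := by exact_mod_cast (Nat.Prime.pos Fact.out : 0 < q)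
  have hqx : (q : ℝ) = Real.exp x := by rw [hx, Real.exp_log hq0]
  have hx0 : 0 < x := by linarith
  have hk0 : (2 : ℝ) ≤ k₀ := by exact_mod_cast hk₀
  have hd : 0 < 1 / 3 - κ := by linarith
  have hδ0 : 0 < δ := by rw [hδ]; positivity
  set D : ℕ := ⌊Real.exp (η * x)⌋₊ with hD
  set N : ℕ := ⌊Real.exp ((1 + κ) / 2 * x)⌋₊ with hN
  set T : ℕ := ⌊C * Real.exp (δ * x / 4)⌋₊ with hT
  have hηx : Real.exp (η * x) = Real.exp (η * x / 2) * Real.exp (η * x / 2) := by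
    rw [← Real.exp_add]; congr 1; ring
  have hDu : (D : ℝ) ≤ Real.exp (η * x) := Nat.floor_le (Real.exp_pos _).le
  have hDl : Real.exp (η * x / 2) ≤ D := by
    have h1 : (2 : ℝ) ≤ Real.exp (η * x) := by rw [hηx]; nlinarith
    have h2 := half_le_floor h1
    rw [← hD] at h2
    refine le_trans ?_ h2
    rw [hηx]
    nlinarith
  have hD1 : 1 ≤ D := by
    have : (1 : ℝ) ≤ D := by linarith
    exact_mod_cast this
  have hDq : D < q := by
    have h1 : (D : ℝ) < q := by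
      rw [hqx]
      refine lt_of_le_of_lt hDu (Real.exp_lt_exp.2 ?_)
      nlinarith
    exact_mod_cast h1
  have hNq : N < q := by
    have h1 : (N : ℝ) < q := by
      rw [hqx]
      refine lt_of_le_of_lt (Nat.floor_le (Real.exp_pos _).le) (Real.exp_lt_exp.2 ?_)
      nlinarith
    exact_mod_cast h1
  have hN1 : 1 ≤ N := by
    have h1 := half_le_floor a4
    have : (1 : ℝ) ≤ N := by linarith
    exact_mod_cast this
  have hdivT : ∀ n : ℕ, 0 < n → n < q ^ 2 → n.divisors.card ≤ T := by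
    intro n hn hnq
    apply Nat.le_floor
    refine (hdiv n hn).trans (mul_le_mul_of_nonneg_left ?_ hC.le)
    have h1 : (n : ℝ) ≤ Real.exp (2 * x) := by
      have h2 : (n : ℝ) ≤ (q : ℝ) ^ 2 := by exact_mod_cast hnq.le
      rw [hqx, ← Real.exp_nat_mul] at h2
      exact_mod_cast h2
    calc (n : ℝ) ^ (δ / 8) ≤ (Real.exp (2 * x)) ^ (δ / 8) :=
          Real.rpow_le_rpow (Nat.cast_nonneg _) h1 (by positivity)
      _ = Real.exp (δ * x / 4) := by rw [← Real.exp_mul]; congr 1; ring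
  have hqk : q ≤ D ^ (k₀ + 1) := by
    have h1 : (q : ℝ) ≤ (D : ℝ) ^ (k₀ + 1) := by
      calc (q : ℝ) ≤ (Real.exp (η * x / 2)) ^ (k₀ + 1) := by
            rw [hqx, ← Real.exp_nat_mul, Real.exp_le_exp]
            push_cast
            rw [div_le_iff₀ hη] at hk₀η
            have h2 : 2 * x ≤ (k₀ * η) * x := mul_le_mul_of_nonneg_right hk₀η hx0.le
            have h3 : 0 < η * x := by positivity
            linarith
        _ ≤ _ := pow_le_pow_left₀ (Real.exp_pos _).le hDl _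
    exact_mod_cast h1
  set c : ℝ := (Fintype.card (ann H) : ℝ) with hc
  have hc0 : 0 ≤ c := Nat.cast_nonneg _
  set Lg : ℝ := ∑ k ∈ Icc 2 k₀, ((T : ℝ) * (c ^ (1 / (k : ℝ)) *
        (q : ℝ) ^ (-(1 / (2 * ((k : ℝ) + 1)))))) +
      (Real.sqrt (2 * T * c * (N / q)) + c * (N : ℝ) ^ (-(1 / 2 : ℝ))) with hLg
  have hLg1 : ∑ n ∈ (NN H).filter (fun n => D < n), (n : ℝ) ^ (-(1 / 2 : ℝ)) ≤ Lg := by
    apply long_sum (ann H) _ hD1 hNq hN1 hqk _ hdivT
    intro n hn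
    rw [mem_filter, mem_NN] at hn
    exact ⟨hn.2, hn.1.1, hn.1.2.2⟩
  have hLg2 := lg_le (ann H) hx hx1 hκ hκ1 hk₀ hδ hC hH a4
  rw [← hT, ← hN, ← hLg] at hLg2
  have hTu : (T : ℝ) ≤ C * Real.exp (δ * x / 4) := Nat.floor_le (by positivity)
  have herr1 : 7 * (D : ℝ) * c * (q : ℝ) ^ (-(1 / 2 : ℝ)) ≤ 1 / 8 := by
    have h1 : (q : ℝ) ^ (-(1 / 2 : ℝ)) = Real.exp (-(1 / 2) * x) := by
      rw [hqx, ← Real.exp_mul]; congr 1; ring
    rw [h1]
    calc 7 * (D : ℝ) * c * Real.exp (-(1 / 2) * x) ≤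
          7 * Real.exp (η * x) * Real.exp (κ * x) * Real.exp (-(1 / 2) * x) := by
          apply mul_le_mul_of_nonneg_right _ (Real.exp_pos _).le
          apply mul_le_mul _ hH hc0 (by positivity)
          linarith
      _ = 7 * Real.exp ((η + κ - 1 / 2) * x) := by
          rw [mul_assoc, mul_assoc, ← Real.exp_add, ← Real.exp_add]
          congr 2
          ring
      _ ≤ _ := a1
  -- the size of `H`
  set b : ℝ := (Fintype.card H : ℝ) with hb
  have hb0 : 0 ≤ b := Nat.cast_nonneg _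
  have hbc : b * c = q - 1 := card_mul H
  have hbl : Real.exp ((1 - κ) * x) / 2 ≤ b := by
    have h1 : (q : ℝ) / 2 ≤ b * c := by
      rw [hbc]
      have : (2 : ℝ) ≤ q := by exact_mod_cast hq2
      linarith
    have h2 : b * c ≤ b * Real.exp (κ * x) := mul_le_mul_of_nonneg_left hH hb0
    have h3 : Real.exp x / 2 * Real.exp (-(κ * x)) ≤ b * Real.exp (κ * x) * Real.exp (-(κ * x)) := by
      apply mul_le_mul_of_nonneg_right _ (Real.exp_pos _).le
      rw [← hqx]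
      exact h1.trans h2
    have e1 : b * Real.exp (κ * x) * Real.exp (-(κ * x)) = b := by
      rw [mul_assoc, ← Real.exp_add, add_neg_cancel, Real.exp_zero, mul_one]
    have e2 : Real.exp ((1 - κ) * x) / 2 = Real.exp x / 2 * Real.exp (-(κ * x)) := by
      have : Real.exp ((1 - κ) * x) = Real.exp x * Real.exp (-(κ * x)) := by
        rw [← Real.exp_add]; congr 1; ring
      rw [this]; ring
    rw [e1] at h3
    rw [e2]
    exact h3
  have hb23 : (q : ℝ) ^ (2 / 3 : ℝ) ≤ b := by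
    refine le_trans ?_ hbl
    rw [le_div_iff₀ (by norm_num : (0 : ℝ) < 2)]
    have e1 : (q : ℝ) ^ (2 / 3 : ℝ) = Real.exp (2 / 3 * x) := by
      rw [hqx, ← Real.exp_mul]; congr 1; ring
    have e2 : Real.exp ((1 - κ) * x) = Real.exp (2 / 3 * x) * Real.exp ((1 / 3 - κ) * x) := by
      rw [← Real.exp_add]; congr 1; ring
    rw [e1, e2]
    exact mul_le_mul_of_nonneg_left a7 (Real.exp_pos _).le
  have hq5 : 80 * Real.sqrt q * Real.sqrt D ≤ b := by
    refine le_trans ?_ hbl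
    have h1 : Real.sqrt q = Real.exp (x / 2) := by
      rw [hqx, Real.sqrt_eq_rpow, ← Real.exp_mul]; congr 1; ring
    have h2 : Real.sqrt D ≤ Real.exp (η * x) := by
      refine le_trans ?_ hDu
      rw [Real.sqrt_le_left (Nat.cast_nonneg _)]
      have : (1 : ℝ) ≤ D := by exact_mod_cast hD1
      nlinarith
    rw [h1, le_div_iff₀ (by norm_num : (0 : ℝ) < 2)]
    have e1 : Real.exp ((1 - κ) * x) = Real.exp (x / 2) * Real.exp (η * x) *
        Real.exp ((1 / 2 - κ - η) * x) := by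
      rw [← Real.exp_add, ← Real.exp_add]; congr 1; ring
    rw [e1]
    calc 80 * Real.exp (x / 2) * Real.sqrt D * 2 ≤ 80 * Real.exp (x / 2) * Real.exp (η * x) * 2 := by
          apply mul_le_mul_of_nonneg_right _ (by norm_num)
          exact mul_le_mul_of_nonneg_left h2 (by positivity)
      _ = Real.exp (x / 2) * Real.exp (η * x) * 160 := by ring
      _ ≤ _ := mul_le_mul_of_nonneg_left a6 (by positivity)
  have hcount := count_large H χ₀ B hB D hD1 hDq (C * Real.exp (δ * x / 4)) Lg (by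
      intro n hn hnq
      refine le_trans ?_ hTu
      exact_mod_cast hdivT n hn (by nlinarith)) hLg1 (by linarith) v hv0 hv hq5
      (M := C1 * (q : ℝ) ^ (ε / 4)) (by positivity) (hms hb23)
  set A : ℝ := (((univ : Finset H).filter (fun ψ : H => v ≤
        ‖DirichletCharacter.LFunction (χ₀ * (ψ : DirichletCharacter ℂ q)) (1 / 2)‖)).card : ℝ) with hA
  have hA0 : 0 ≤ A := Nat.cast_nonneg _
  have e1 : (q : ℝ) ^ (ε / 4) = Real.exp (ε * x / 4) := by
    rw [hqx, ← Real.exp_mul]; congr 1; ring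
  rw [e1] at hcount
  have h1 : 256 * (D : ℝ) * (C1 * Real.exp (ε * x / 4)) ≤ Real.exp (3 * ε * x / 4) := by
    have h2 : (D : ℝ) ≤ Real.exp (ε * x / 4) := by
      refine hDu.trans (Real.exp_le_exp.2 ?_)
      nlinarith
    calc 256 * (D : ℝ) * (C1 * Real.exp (ε * x / 4)) = D * (256 * C1) * Real.exp (ε * x / 4) := by ring
      _ ≤ Real.exp (ε * x / 4) * Real.exp (ε * x / 4) * Real.exp (ε * x / 4) := by
          apply mul_le_mul_of_nonneg_right _ (Real.exp_pos _).le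
          exact mul_le_mul h2 a5 (by positivity) (by positivity)
      _ = _ := by rw [← Real.exp_add, ← Real.exp_add]; congr 1; ring
  have hε0 : 0 < ε := by linarith
  have h2 : b ≤ Real.exp (3 * ε * x / 4) * A :=
    hcount.trans (mul_le_mul_of_nonneg_right h1 hA0)
  calc Real.exp (-(ε * x)) * b ≤ Real.exp (-(ε * x)) * (Real.exp (3 * ε * x / 4) * A) :=
        mul_le_mul_of_nonneg_left h2 (Real.exp_pos _).le
    _ = Real.exp (-(ε * x / 4)) * A := by
        rw [← mul_assoc, ← Real.exp_add]; congr 2; ring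
    _ ≤ 1 * A := by
        apply mul_le_mul_of_nonneg_right _ hA0
        rw [Real.exp_le_one_iff]
        have : 0 < ε * x := by positivity
        linarith
    _ = A := one_mul _

end Pool.Agent.V8H35.NV
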